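import Pool.Agent.Helper70.GUM.St2

/-!
Project GUM (helper70), module BL1: block sums.
-/

set_option autoImplicit false

namespace Pool.Agent.Helper70.GUM.B1

open Pool.Agent.Helper70.GUM Module OG UN
open scoped Classical

universe u v w z y o

section

variable {k : Type u} {F : Type v} {R : Type w} {K : Type z} [Field k] [Fintype k]
  [Field F] [Fintype F] [Algebra k F] {σ : F ≃ₐ[k] F} [CommRing R] [Field K] [Algebra R K]
  {hσ : QE σ} {χ : AddChar F R} {r : R} {x : F}

private theorem sum_chi (hS : Sums σ χ x) (t : F) :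
    ∑ b : F, χ (b * t) = if t = 0 then ((Nat.card k : ℕ) : R) ^ 2 else 0 := by
  split_ifs with h
  · rw [h]
    simp only [mul_zero, AddChar.map_zero_eq_one, Finset.sum_const, Finset.card_univ,
      nsmul_eq_mul, mul_one]
    rw [hS.cardF]
    push_cast
    rfl
  · rw [← hS.sF t h]
    exact Finset.sum_congr rfl fun b _ => by rw [mul_comm]

private theorem sum_F0 (hS : Sums σ χ x) : ∑ z ∈ F0 σ, χ (-z) = 0 := by
  rw [← hS.s0 (-1) (neg_ne_zero.2 one_ne_zero)]
  refine Finset.sum_congr rfl fun z _ => ?_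
  have e : algebraMap k F (-1) * z = -z := by rw [map_neg, map_one, neg_one_mul]
  rw [e]

omit [Algebra R K] in
private theorem ind_sum (hC : Ctx K σ χ r x) (hS : Sums σ χ x) (a a' t : F) :
    r ^ 2 * ∑ b ∈ Finset.univ.erase (0 : F), (χ (b * a) - χ (b * a')) * χ (-(b * t)) =
      (if t = a then 1 else 0) - (if t = a' then 1 else 0) := by
  have h1 : ∑ b ∈ Finset.univ.erase (0 : F), (χ (b * a) - χ (b * a')) * χ (-(b * t)) =
      ∑ b : F, (χ (b * a) - χ (b * a')) * χ (-(b * t)) := by
    rw [← Finset.add_sum_erase Finset.univ _ (Finset.mem_univ (0 : F))]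
    simp
  have h2 : ∑ b : F, (χ (b * a) - χ (b * a')) * χ (-(b * t)) =
      ∑ b : F, χ (b * (a - t)) - ∑ b : F, χ (b * (a' - t)) := by
    rw [← Finset.sum_sub_distrib]
    refine Finset.sum_congr rfl fun b _ => ?_
    rw [sub_mul, ← AddChar.map_add_eq_mul, ← AddChar.map_add_eq_mul, mul_sub, mul_sub,
      sub_eq_add_neg (b * a), sub_eq_add_neg (b * a')]
  have hr : r ^ 2 * ((Nat.card k : ℕ) : R) ^ 2 = 1 := by
    rw [← mul_pow, hC.inv, one_pow]
  rw [h1, h2, sum_chi hS, sum_chi hS, mul_sub]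
  congr 1
  · by_cases h : t = a
    · rw [if_pos (by rw [h, sub_self]), if_pos h, hr]
    · rw [if_neg (fun h0 => h (sub_eq_zero.1 h0).symm), if_neg h, mul_zero]
  · by_cases h : t = a'
    · rw [if_pos (by rw [h, sub_self]), if_pos h, hr]
    · rw [if_neg (fun h0 => h (sub_eq_zero.1 h0).symm), if_neg h, mul_zero]

private theorem ivn_one : ivn (1 : Hei hσ) = 1 := by
  have h : (0 : F) + σ 0 = 0 * σ 0 := by simp
  have e : ivn (1 : Hei hσ) = pt hσ 0 0 := by
    rw [ivn, Hei.one_a, Hei.one_c, div_zero, div_zero]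
  rw [e]
  ext
  · rw [pt_a h, Hei.one_a]
  · rw [pt_c h, Hei.one_c]

private theorem ivn_ivn (g : Hei hσ) : ivn (ivn g) = g := by
  by_cases hg : g = 1
  · rw [hg, ivn_one, ivn_one]
  · have hc := Hei.c_ne g hg
    have hc' : (ivn g).c ≠ 0 := by
      rw [ivn_c g hc]
      exact one_div_ne_zero hc
    ext
    · rw [ivn_a _ hc', ivn_a g hc, ivn_c g hc]
      field_simp
    · rw [ivn_c _ hc', ivn_c g hc, one_div_one_div]

/-- the permutation `v ↦ g₀ * ivn v` -/
private noncomputable def perm (g₀ : Hei hσ) : Hei hσ ≃ Hei hσ :=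
  (Function.Involutive.toPerm ivn ivn_ivn).trans (Equiv.mulLeft g₀)

private theorem perm_apply (g₀ v : Hei hσ) : perm g₀ v = g₀ * ivn v := rfl

private theorem cen_com {z : F} (hz : z + σ z = 0) (g : Hei hσ) : g * cen hσ z = cen hσ z * g := by
  ext
  · rw [Hei.mul_a, Hei.mul_a, cen_a hz, add_comm]
  · rw [Hei.mul_c, Hei.mul_c, cen_a hz, cen_c hz, map_zero]
    ring

/-- the sum over a coset of the centre vanishes -/
private theorem coset_zero (hC : Ctx K σ χ r x) (hS : Sums σ χ x) (φ : Hei hσ → K)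
    (hφ : φ ∈ Fun R K hσ χ) (g : Hei hσ) (β : F) :
    ∑ h : Hei hσ, (if h.a = β then φ (g * h) else 0) = 0 := by
  set T : K := ∑ h : Hei hσ, (if h.a = β then φ (g * h) else 0) with hT
  have h1 : ∀ z ∈ F0 σ, T = χ (-z) • T := by
    intro z hz
    rw [mem_F0] at hz
    rw [hT, Finset.smul_sum]
    rw [← Equiv.sum_comp (Equiv.mulLeft (cen hσ z))
      (fun h : Hei hσ => if h.a = β then φ (g * h) else 0)]
    refine Finset.sum_congr rfl fun h _ => ?_
    have e1 : (Equiv.mulLeft (cen hσ z) h : Hei hσ) = cen hσ z * h := rfl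
    rw [e1]
    have e2 : (cen hσ z * h).a = h.a := by rw [Hei.mul_a, cen_a hz, zero_add]
    rw [e2]
    split_ifs with h0
    · rw [← mul_assoc, cen_com hz, mul_assoc]
      exact hφ (g * h) z hz
    · rw [smul_zero]
  have h2 : (F0 σ).card • T = 0 := by
    rw [← Finset.sum_const]
    rw [Finset.sum_congr rfl h1, ← Finset.sum_smul, sum_F0 hS, zero_smul]
  have h3 : (r * ((Nat.card k : ℕ) : R)) • T = 0 := by
    rw [mul_smul, Nat.cast_smul_eq_nsmul, ← hS.cardF0, h2, smul_zero]
  rwa [hC.inv, one_smul] at h3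

private theorem blk_eq (φ : Hei hσ → K) (g : Hei hσ) (c : F) :
    ∑ h : Hei hσ, (if h.c = c then φ (g * h) else 0) = blk φ g c := by
  rw [blk, ← Finset.sum_filter]
  refine Finset.sum_bij' (fun h _ => h.a) (fun b _ => pt hσ b c) ?_ ?_ ?_ ?_ ?_
  · intro h hh
    rw [Finset.mem_filter] at hh ⊢
    refine ⟨Finset.mem_univ _, ?_⟩
    rw [← hh.2]
    exact h.h
  · intro b hb
    rw [Finset.mem_filter] at hb ⊢
    exact ⟨Finset.mem_univ _, pt_c hb.2⟩
  · intro h hh
    rw [Finset.mem_filter] at hh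
    rw [← hh.2]
    exact pt_eta h
  · intro b hb
    rw [Finset.mem_filter] at hb
    exact pt_a hb.2
  · intro h hh
    rw [Finset.mem_filter] at hh
    have e : pt hσ h.a c = h := by
      rw [← hh.2]
      exact pt_eta h
    rw [e]

end

theorem hBL1 (hBL0 : StBL0.{u, v, w, z, y, o}) : StBL1.{u, v, w, z, y, o} := by
  intro k F R K E Ω _ _ _ _ _ σ _ _ _ _ hσ _ _ H S G χ r x hC hS hA N hN φ hφ g c hc
  obtain ⟨hφF, hφN⟩ := mem_Qn.1 hφ
  -- (a) differences of fibre sums
  have hdif : ∀ f ∈ N, ∀ a a' : F, ∑ v : Hei hσ,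
      ((if v.a = a then f (G.w v) else 0) - (if v.a = a' then f (G.w v) else 0)) ∈ Jn G χ N := by
    intro f hf a a'
    have e : ∑ v : Hei hσ, ((if v.a = a then f (G.w v) else 0) - (if v.a = a' then f (G.w v) else 0)) =
        r ^ 2 • ∑ b ∈ Finset.univ.erase (0 : F), (χ (b * a) - χ (b * a')) •
          ∑ v : Hei hσ, χ (-b * v.a) • f (G.w v) := by
      have e1 : ∀ b : F, (χ (b * a) - χ (b * a')) • ∑ v : Hei hσ, χ (-b * v.a) • f (G.w v) =
          ∑ v : Hei hσ, ((χ (b * a) - χ (b * a')) * χ (-(b * v.a))) • f (G.w v) := by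
        intro b
        rw [Finset.smul_sum]
        refine Finset.sum_congr rfl fun v _ => ?_
        rw [mul_smul, neg_mul]
      simp only [e1]
      rw [Finset.sum_comm, Finset.smul_sum]
      refine Finset.sum_congr rfl fun v _ => ?_
      rw [← Finset.sum_smul, ← mul_smul, ind_sum hC hS a a' v.a, sub_smul]
      congr 1
      · split_ifs
        · rw [one_smul]
        · rw [zero_smul]
      · split_ifs
        · rw [one_smul]
        · rw [zero_smul]
    rw [e]
    refine Submodule.smul_mem _ _ (Submodule.sum_mem _ fun b hb => Submodule.smul_mem _ _ ?_)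
    exact (hBL0 G hS hA N hN (-b) (neg_ne_zero.2 (Finset.ne_of_mem_erase hb))).2.1 f hf
  -- (b) the element `g₀`
  obtain ⟨n, hn⟩ := hS.trc c
  obtain ⟨β, hβ⟩ := hσ.nrm n
  have hβc : c + σ c = β * σ β := by rw [hβ, hn]
  have hβ0 : β ≠ 0 := by
    intro h0
    apply hc
    rw [hβc, h0, zero_mul]
  have hσβ : σ β ≠ 0 := by
    intro h0
    exact hβ0 ((map_eq_zero_iff σ σ.injective).1 h0)
  set g₀ : Hei hσ := pt hσ β c with hg₀
  have hg₀a : g₀.a = β := pt_a hβc
  have hg₀c : g₀.c = c := pt_c hβc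
  set f : Ω → K := act G.n (act (G.e (g * g₀)⁻¹) (G.ext φ)) with hf
  have hfN : f ∈ N := hN.stab _ G.n_mem _ (hN.stab _ (G.e_mem _) _ hφN)
  have hf1 : f (G.w 1) = 0 := by
    rw [hf, hA.nw1, hA.ew0, G.ext_w0]
  have hfv : ∀ v : Hei hσ, v ≠ 1 → f (G.w v) = φ (g * (g₀ * ivn v)) := by
    intro v hv
    rw [hf, hA.nw v _ hv, hA.ew, G.ext_w, inv_inv, mul_assoc]
  have key : ∑ v : Hei hσ, ((if v.a = -1 / σ β then f (G.w v) else 0) -
      (if v.a = 0 then f (G.w v) else 0)) = blk φ g c := by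
    have e1 : blk φ g c = ∑ h : Hei hσ, ((if h.c = c then φ (g * h) else 0) -
        (if h.a = β then φ (g * h) else 0)) := by
      rw [Finset.sum_sub_distrib, blk_eq, coset_zero hC hS φ hφF, sub_zero]
    rw [e1, ← Equiv.sum_comp (perm g₀) (fun h : Hei hσ => (if h.c = c then φ (g * h) else 0) -
        (if h.a = β then φ (g * h) else 0))]
    refine Finset.sum_congr rfl fun v _ => ?_
    rw [perm_apply]
    by_cases hv : v = 1
    · rw [hv, hf1, ivn_one, mul_one, if_pos hg₀c, if_pos hg₀a, sub_self]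
      simp
    · rw [hfv v hv]
      have hvc := Hei.c_ne v hv
      have i1 : (g₀ * ivn v).c = c ↔ v.a = -1 / σ β := by
        rw [Hei.mul_c, ivn_c v hvc, ivn_a v hvc, hg₀c, hg₀a, eq_div_iff hσβ]
        constructor
        · intro h
          have h2 : (1 / v.c + v.a / v.c * σ β) * v.c = 0 := by
            have h3 : 1 / v.c + v.a / v.c * σ β = 0 := by linear_combination h
            rw [h3, zero_mul]
          field_simp at h2
          linear_combination h2
        · intro h
          have h2 : 1 / v.c + v.a / v.c * σ β = 0 := by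
            field_simp
            linear_combination h
          linear_combination h2
      have i2 : (g₀ * ivn v).a = β ↔ v.a = 0 := by
        rw [Hei.mul_a, ivn_a v hvc, hg₀a, add_eq_left, div_eq_zero_iff]
        constructor
        · rintro (h | h)
          · exact h
          · exact absurd h hvc
        · exact Or.inl
      simp only [i1, i2]
  rw [← key]
  exact hdif f hfN _ _

end Pool.Agent.Helper70.GUM.B1
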