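import Pool.Agent.Helper60.GUM.Defs

/-!
# Project GUM (MP_0bd1d1_al), definitions for the base case `GU_3(q)`

`F / k` is a quadratic extension of finite fields with involution `σ`, `q = |k|`, `N(a) = a σ(a)`, `Tr(c) = c + σ(c)`.
`Hei` is the Heisenberg group of the pairs `(a, c)` with `Tr(c) = N(a)` and
`(a, c)(a', c') = (a + a', c + c' + a' σ(a))`.  It acts regularly on the isotropic points different from `⟨p⟩` of the
hermitian space `⟨p, p', u⟩`, `B(p, p') = 1`, `B(u, u) = -1`: `(a, c)` corresponds to `⟨p' + a u + c p⟩`.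
-/

set_option autoImplicit false

namespace Pool.Agent.Helper70.GUM

open Module OG UN
open scoped Classical

variable {k F : Type*} [Field k] [Field F] [Algebra k F] {σ : F ≃ₐ[k] F}

/-- The Heisenberg group of the quadratic extension. -/
@[ext] structure Hei (hσ : QE σ) where
  /-- first coordinate -/
  a : F
  /-- second coordinate -/
  c : F
  h : c + σ c = a * σ a

variable {hσ : QE σ}

namespace Hei

instance : Mul (Hei hσ) := ⟨fun g h => ⟨g.a + h.a, g.c + h.c + h.a * σ g.a, by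
  have h1 := g.h
  have h2 := h.h
  have h3 := hσ.inv g.a
  simp only [map_add, map_mul, h3]
  linear_combination h1 + h2⟩⟩

instance : One (Hei hσ) := ⟨⟨0, 0, by simp⟩⟩

instance : Inv (Hei hσ) := ⟨fun g => ⟨-g.a, σ g.c, by
  have h1 := g.h
  have h3 := hσ.inv g.c
  simp only [map_neg, h3]
  linear_combination h1⟩⟩

theorem mul_a (g h : Hei hσ) : (g * h).a = g.a + h.a := rfl

theorem mul_c (g h : Hei hσ) : (g * h).c = g.c + h.c + h.a * σ g.a := rfl

theorem one_a : (1 : Hei hσ).a = 0 := rfl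

theorem one_c : (1 : Hei hσ).c = 0 := rfl

theorem inv_a (g : Hei hσ) : (g⁻¹).a = -g.a := rfl

theorem inv_c (g : Hei hσ) : (g⁻¹).c = σ g.c := rfl

instance : Group (Hei hσ) := Group.ofLeftAxioms
  (by
    intro g h l
    ext
    · simp only [mul_a]
      ring
    · simp only [mul_a, mul_c, map_add]
      ring)
  (by
    intro g
    ext
    · simp only [mul_a, one_a]
      ring
    · simp only [mul_c, one_c, one_a, map_zero]
      ring)
  (by
    intro g
    ext
    · simp only [mul_a, inv_a, one_a]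
      ring
    · simp only [mul_c, inv_c, inv_a, one_c, map_neg]
      linear_combination g.h)

instance [Finite F] : Finite (Hei hσ) :=
  Finite.of_injective (fun g : Hei hσ => (g.a, g.c)) (by
    intro g h e
    have e' : (g.a, g.c) = (h.a, h.c) := e
    rw [Prod.mk.injEq] at e'
    exact Hei.ext e'.1 e'.2)

noncomputable instance [Finite F] : Fintype (Hei hσ) := Fintype.ofFinite _

end Hei

variable (hσ) in
/-- The element `(a, c)`, or `1` if `Tr(c) ≠ N(a)`. -/
noncomputable def pt (a c : F) : Hei hσ := if h : c + σ c = a * σ a then ⟨a, c, h⟩ else 1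

theorem pt_a {a c : F} (h : c + σ c = a * σ a) : (pt hσ a c).a = a := by
  rw [pt, dif_pos h]

theorem pt_c {a c : F} (h : c + σ c = a * σ a) : (pt hσ a c).c = c := by
  rw [pt, dif_pos h]

theorem pt_eta (g : Hei hσ) : pt hσ g.a g.c = g := by
  rw [pt, dif_pos g.h]

variable (hσ) in
/-- The section `s_ε(a) = (a, ε N(a))` (used for `Tr(ε) = 1`). -/
noncomputable def sc (ε a : F) : Hei hσ := pt hσ a (ε * (a * σ a))

theorem sc_ok (hσ : QE σ) {ε : F} (hε : ε + σ ε = 1) (a : F) :
    ε * (a * σ a) + σ (ε * (a * σ a)) = a * σ a := by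
  rw [map_mul, map_mul, hσ.inv a]
  linear_combination (a * σ a) * hε

theorem sc_a {ε : F} (hε : ε + σ ε = 1) (a : F) : (sc hσ ε a).a = a := pt_a (sc_ok hσ hε a)

theorem sc_c {ε : F} (hε : ε + σ ε = 1) (a : F) : (sc hσ ε a).c = ε * (a * σ a) :=
  pt_c (sc_ok hσ hε a)

variable (hσ) in
/-- The central element `(0, z)` (used for `Tr(z) = 0`). -/
noncomputable def cen (z : F) : Hei hσ := pt hσ 0 z

theorem cen_ok {z : F} (hz : z + σ z = 0) : z + σ z = 0 * σ 0 := by rw [hz, zero_mul]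

theorem cen_a {z : F} (hz : z + σ z = 0) : (cen hσ z).a = 0 := pt_a (cen_ok hz)

theorem cen_c {z : F} (hz : z + σ z = 0) : (cen hσ z).c = z := pt_c (cen_ok hz)

/-- Rotation `(a, c) ↦ (t a, c)` (used for `N(t) = 1`). -/
noncomputable def rot (t : F) (g : Hei hσ) : Hei hσ := pt hσ (t * g.a) g.c

/-- Scaling `(a, c) ↦ (σ(t) a, N(t) c)`. -/
noncomputable def scl (t : F) (g : Hei hσ) : Hei hσ := pt hσ (σ t * g.a) (t * σ t * g.c)

/-- Inversion `(a, c) ↦ (a / c, 1 / c)`. -/
noncomputable def ivn (g : Hei hσ) : Hei hσ := pt hσ (g.a / g.c) (1 / g.c)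

theorem rot_ok {t : F} (ht : t * σ t = 1) (g : Hei hσ) :
    g.c + σ g.c = t * g.a * σ (t * g.a) := by
  rw [map_mul, g.h]
  linear_combination (-(g.a * σ g.a)) * ht

theorem rot_a {t : F} (ht : t * σ t = 1) (g : Hei hσ) : (rot t g).a = t * g.a := pt_a (rot_ok ht g)

theorem rot_c {t : F} (ht : t * σ t = 1) (g : Hei hσ) : (rot t g).c = g.c := pt_c (rot_ok ht g)

theorem scl_ok (t : F) (g : Hei hσ) :
    t * σ t * g.c + σ (t * σ t * g.c) = σ t * g.a * σ (σ t * g.a) := by
  rw [map_mul, map_mul, map_mul, hσ.inv t]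
  linear_combination (t * σ t) * g.h

theorem scl_a (t : F) (g : Hei hσ) : (scl t g).a = σ t * g.a := pt_a (scl_ok t g)

theorem scl_c (t : F) (g : Hei hσ) : (scl t g).c = t * σ t * g.c := pt_c (scl_ok t g)

theorem ivn_ok (g : Hei hσ) (hc : g.c ≠ 0) :
    1 / g.c + σ (1 / g.c) = g.a / g.c * σ (g.a / g.c) := by
  have h2 : σ g.c ≠ 0 := by
    intro h
    exact hc ((map_eq_zero σ).1 h)
  rw [map_div₀, map_one, map_div₀]
  field_simp
  linear_combination g.h

theorem ivn_a (g : Hei hσ) (hc : g.c ≠ 0) : (ivn g).a = g.a / g.c := pt_a (ivn_ok g hc)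

theorem ivn_c (g : Hei hσ) (hc : g.c ≠ 0) : (ivn g).c = 1 / g.c := pt_c (ivn_ok g hc)

/-- `c ≠ 0` unless the element is `1`. -/
theorem Hei.c_ne (g : Hei hσ) (hg : g ≠ 1) : g.c ≠ 0 := by
  intro hc
  apply hg
  have h1 := g.h
  rw [hc, map_zero, add_zero] at h1
  have h2 : g.a = 0 := by
    rcases mul_eq_zero.1 h1.symm with h | h
    · exact h
    · exact (map_eq_zero σ).1 h
  exact Hei.ext h2 hc

variable (x : F) in
/-- `ε_j = 1 / (1 - x ^ j)`. -/
noncomputable def ep (j : ℕ) : F := (1 - x ^ j)⁻¹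

section fun_spaces

variable {R K : Type*} [CommRing R] [Field K] [Algebra R K]

/-- The functions `f` on the Heisenberg group with `f(z g) = χ(-z) f(g)` for central `z`. -/
def Fun (R K : Type*) [CommRing R] [Field K] [Algebra R K] (hσ : QE σ) (χ : AddChar F R) :
    Submodule R (Hei hσ → K) where
  carrier := {f | ∀ (g : Hei hσ) (z : F), z + σ z = 0 → f (cen hσ z * g) = χ (-z) • f g}
  zero_mem' := by
    intro g z _
    simp
  add_mem' := by
    intro f f' hf hf' g z hz
    rw [Pi.add_apply, Pi.add_apply, hf g z hz, hf' g z hz, smul_add]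
  smul_mem' := by
    intro c f hf g z hz
    rw [Pi.smul_apply, Pi.smul_apply, hf g z hz, smul_comm]

theorem mem_Fun {χ : AddChar F R} {f : Hei hσ → K} : f ∈ Fun R K hσ χ ↔
    ∀ (g : Hei hσ) (z : F), z + σ z = 0 → f (cen hσ z * g) = χ (-z) • f g := Iff.rfl

/-- The functions with values in `J`. -/
def VS (hσ : QE σ) (J : Submodule R K) : Submodule R (Hei hσ → K) where
  carrier := {f | ∀ g, f g ∈ J}
  zero_mem' := fun _ => zero_mem _
  add_mem' := fun hf hf' g => J.add_mem (hf g) (hf' g)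
  smul_mem' := fun c _ hf g => J.smul_mem c (hf g)

theorem mem_VS {J : Submodule R K} {f : Hei hσ → K} : f ∈ VS hσ J ↔ ∀ g, f g ∈ J := Iff.rfl

variable (R K) in
/-- The `R`-valued functions of `Fun`. -/
def Lam (hσ : QE σ) (χ : AddChar F R) : Submodule R (Hei hσ → K) :=
  Fun R K hσ χ ⊓ VS hσ (1 : Submodule R K)

variable (R) in
/-- Left translation, `(u f)(g) = f(u⁻¹ g)`. -/
def Lt (u : Hei hσ) : (Hei hσ → K) →ₗ[R] (Hei hσ → K) where
  toFun f := fun g => f (u⁻¹ * g)
  map_add' _ _ := rfl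
  map_smul' _ _ := rfl

theorem Lt_apply (u g : Hei hσ) (f : Hei hσ → K) : Lt R u f g = f (u⁻¹ * g) := rfl

/-- `(X_ε f)(g) = - r ∑_a f(g s_ε(a))`. -/
noncomputable def XR [Fintype F] (r : R) (ε : F) : (Hei hσ → K) →ₗ[R] (Hei hσ → K) where
  toFun f := fun g => -(r • ∑ a : F, f (g * sc hσ ε a))
  map_add' f f' := by
    funext g
    simp only [Pi.add_apply, Finset.sum_add_distrib, smul_add]
    ring
  map_smul' c f := by
    funext g
    simp only [Pi.smul_apply, RingHom.id_apply, ← Finset.smul_sum]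
    rw [smul_comm, smul_neg]

theorem XR_apply [Fintype F] (r : R) (ε : F) (f : Hei hσ → K) (g : Hei hσ) :
    XR r ε f g = -(r • ∑ a : F, f (g * sc hσ ε a)) := rfl

/-- `(X'_ε f)(g) = - r ∑_a f(s_ε(a)⁻¹ g)`. -/
noncomputable def XL [Fintype F] (r : R) (ε : F) : (Hei hσ → K) →ₗ[R] (Hei hσ → K) where
  toFun f := fun g => -(r • ∑ a : F, f ((sc hσ ε a)⁻¹ * g))
  map_add' f f' := by
    funext g
    simp only [Pi.add_apply, Finset.sum_add_distrib, smul_add]
    ring
  map_smul' c f := by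
    funext g
    simp only [Pi.smul_apply, RingHom.id_apply, ← Finset.smul_sum]
    rw [smul_comm, smul_neg]

theorem XL_apply [Fintype F] (r : R) (ε : F) (f : Hei hσ → K) (g : Hei hσ) :
    XL r ε f g = -(r • ∑ a : F, f ((sc hσ ε a)⁻¹ * g)) := rfl

/-- `Z T = ∑_{j ≤ q} j T ^ j`. -/
noncomputable def ZZ {M : Type*} [AddCommGroup M] [Module R M] (q : ℕ) (T : M →ₗ[R] M) :
    M →ₗ[R] M := ∑ j ∈ Finset.range (q + 1), (j : R) • T ^ j

/-- The function supported on the centre, `D((0, c)) = χ(-c)`. -/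
noncomputable def DD (K : Type*) {R : Type*} [CommRing R] [Field K] [Algebra R K] (hσ : QE σ)
    (χ : AddChar F R) : Hei hσ → K :=
  fun g => if g.a = 0 then algebraMap R K (χ (-g.c)) else 0

/-- Sum of `f` over the block `g B_c`, `B_c = {(b, c) : N(b) = Tr(c)}`. -/
noncomputable def blk [Fintype F] (f : Hei hσ → K) (g : Hei hσ) (c : F) : K :=
  ∑ b ∈ Finset.univ.filter (fun b : F => c + σ c = b * σ b), f (g * pt hσ b c)

/-- The data used: `q = |k|` has the inverse `r` in `R`, `χ` is not trivial on the kernel of the trace, `x` generates the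
group of the elements of norm one, `q + 1 ≠ 0` in `K`. -/
structure Ctx {k F R : Type*} [Field k] [Field F] [Algebra k F] [CommRing R] (K : Type*) [Field K]
    (σ : F ≃ₐ[k] F) (χ : AddChar F R) (r : R) (x : F) : Prop where
  chi : ∃ z, z + σ z = 0 ∧ χ z ≠ 1
  inv : r * (Nat.card k : R) = 1
  xn : x * σ x = 1
  x1 : x ^ (Nat.card k + 1) = 1
  xj : ∀ j, 1 ≤ j → j ≤ Nat.card k → x ^ j ≠ 1
  gen : ∀ t : F, t * σ t = 1 → ∃ j ≤ Nat.card k, t = x ^ j
  nz : ((Nat.card k : ℕ) : K) + 1 ≠ 0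

end fun_spaces

end Pool.Agent.Helper70.GUM
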