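import Pool.Agent.Helper70.GUM.Def

/-!
# Project GUM (MP_0bd1d1_al), base case `GU_3(q)`, part 1: the Heisenberg group and the radial algebra

Notation: `q = Nat.card k`, `N(a) = a σ(a)`, `Tr(c) = c + σ(c)`, `F0 = {z : Tr(z) = 0}` (a `k`-line), `ε_j = ep x j = 1/(1 - x^j)`.
The `ε_j`, `1 ≤ j ≤ q`, are exactly the elements of trace one.  `X = XR r ε_1`, `X' = XL r ε_1`.
MAIN FACTS.  On `Fun` (functions `f` with `f(zg) = χ(-z) f(g)`, `z` central): `X^j = XR r ε_j` for `1 ≤ j ≤ q`, `X^(q+1) = 1`,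
`∑_{j ≤ q} X^j = 0`, so `(X - 1) Z = q + 1` for `Z = ∑ j X^j`; the same for `X'`; `X' X` is the rotation by `x`.
-/

set_option autoImplicit false

namespace Pool.Agent.Helper70.GUM

open Module OG UN
open scoped Classical

universe u v w z

/-- the elements of trace zero -/
noncomputable def F0 {k F : Type*} [Field k] [Field F] [Algebra k F] [Fintype F] (σ : F ≃ₐ[k] F) : Finset F :=
  Finset.univ.filter (fun z : F => z + σ z = 0)

theorem mem_F0 {k F : Type*} [Field k] [Field F] [Algebra k F] [Fintype F] {σ : F ≃ₐ[k] F} {z : F} :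
    z ∈ F0 σ ↔ z + σ z = 0 := by simp [F0]

/-- The character sums. -/
structure Sums {k F R : Type*} [Field k] [Fintype k] [Field F] [Fintype F] [Algebra k F] [CommRing R]
    (σ : F ≃ₐ[k] F) (χ : AddChar F R) (x : F) : Prop where
  cardF : Fintype.card F = (Nat.card k) ^ 2
  cardF0 : (F0 σ).card = Nat.card k
  two : 2 ≤ Nat.card k
  sk : ∀ η : F, η + σ η = 0 → η ≠ 0 → ∑ n : k, χ (η * algebraMap k F n) = 0
  s0 : ∀ n : k, n ≠ 0 → ∑ z ∈ F0 σ, χ (algebraMap k F n * z) = 0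
  gauss : ∀ η : F, η + σ η = 0 → η ≠ 0 → ∑ a : F, χ (η * (a * σ a)) = -((Nat.card k : ℕ) : R)
  sw : ∀ s : F, s ≠ 0 → ∑ a : F, χ (s * σ a - a * σ s) = 0
  sF : ∀ b : F, b ≠ 0 → ∑ a : F, χ (b * a) = 0
  tr1 : ∀ j, 1 ≤ j → j ≤ Nat.card k → ep x j + σ (ep x j) = 1
  inj : ∀ i j, 1 ≤ i → i ≤ Nat.card k → 1 ≤ j → j ≤ Nat.card k → ep x i = ep x j → i = j
  sur : ∀ ε : F, ε + σ ε = 1 → ∃ j, 1 ≤ j ∧ j ≤ Nat.card k ∧ ε = ep x j
  nrm : ∀ a : F, ∃ n : k, algebraMap k F n = a * σ a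
  trc : ∀ c : F, ∃ n : k, algebraMap k F n = c + σ c

/-- Reindexing: `j ↦ ε_j` is a bijection from `{1, …, q}` to the elements of trace one. -/
theorem Sums.ep_sum {k F R : Type*} [Field k] [Fintype k] [Field F] [Fintype F] [Algebra k F] [CommRing R]
    {σ : F ≃ₐ[k] F} {χ : AddChar F R} {x : F} (S : Sums σ χ x) {M : Type*} [AddCommMonoid M] (φ : F → M)
    (ε : F) (hε : ε + σ ε = 1) :
    ∑ j ∈ Finset.Icc 1 (Nat.card k), φ (ep x j) = ∑ z ∈ F0 σ, φ (ε + z) := by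
  refine Finset.sum_bij (fun j _ => ep x j - ε) ?_ ?_ ?_ ?_
  · intro j hj
    rw [Finset.mem_Icc] at hj
    have h1 := S.tr1 j hj.1 hj.2
    rw [mem_F0, map_sub]
    linear_combination h1 - hε
  · intro i hi j hj h
    rw [Finset.mem_Icc] at hi hj
    exact S.inj i j hi.1 hi.2 hj.1 hj.2 (sub_left_injective h)
  · intro z hz
    rw [mem_F0] at hz
    obtain ⟨j, h1, h2, h3⟩ := S.sur (ε + z) (by rw [map_add]; linear_combination hε + hz)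
    exact ⟨j, Finset.mem_Icc.2 ⟨h1, h2⟩, by rw [← h3]; ring⟩
  · intro j _
    congr 1
    ring

/-- MODULE FF (about 120 lines).  PROOF.  `F` is finite (`dim = 2`), `|F| = q²`.  The norm `Fˣ → kˣ`, `a ↦ a σ(a)` (`QE.fix`,
`QE.inv`: `a σ(a)` is fixed by `σ`) is a surjective homomorphism (`QE.nrm`), so its kernel has `(q² - 1)/(q - 1) = q + 1`
elements; a finite subgroup of the units of a field is cyclic; take a generator `x`, of order `q + 1`. -/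
def StFF : Prop := ∀ {k : Type u} {F : Type v} [Field k] [Finite k] [Field F] [Algebra k F] {σ : F ≃ₐ[k] F},
  QE σ → Nat.card F = (Nat.card k) ^ 2 ∧ ∃ x : F, x * σ x = 1 ∧ x ^ (Nat.card k + 1) = 1 ∧
    (∀ j, 1 ≤ j → j ≤ Nat.card k → x ^ j ≠ 1) ∧ ∀ t : F, t * σ t = 1 → ∃ j ≤ Nat.card k, t = x ^ j

/-- MODULE SUM (about 250 lines; may be split).  PROOF.  `F0` is a `k`-line: it is the kernel of the `k`-linear surjective map
`Tr : F → k` (surjective: it is not zero, because `Tr = 0` would give, with `a := 1`, `2 = 0`, `σ a = -a = a` for all `a`, against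
`QE.ne`), or: if `τ ≠ 0`, `σ τ = - τ` then `z ∈ F0 ↔ z / τ ∈ k`.  `τ := y - σ y` for `y` with `σ y ≠ y`.
`sk`: there is `z₀ ∈ F0` with `χ(z₀) ≠ 1` (`Ctx.chi`), `z₀ = η n₀` with `n₀ ∈ k` (`n₀ = z₀/η` is fixed by `σ`); translate the sum
by `n₀`.  `s0`: translate by `z₀ / n`.  `gauss`: the norm takes every value in `k` (`QE.nrm`), `0` once, and each nonzero value
`n` exactly `q + 1` times (the solutions of `N(a) = N(a₀)` are `a = a₀ x^j`, `0 ≤ j ≤ q`, by `Ctx.gen`, `Ctx.xj`), so the sum is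
`1 + (q + 1) ∑_{n ≠ 0} χ(η n) = 1 - (q + 1)` by `sk`.  `sw`: `w := s σ(a)` runs over `F`, `σ(w) = a σ(s)`; `w ↦ w - σ(w)` is
additive with values in `F0`, onto `F0` (its kernel is `k`, so its image has `q` elements), so there is `w₀` with
`χ(w₀ - σ w₀) ≠ 1`; translate by `w₀`.  `sF`: translate.  `tr1`: `1/(1-t) + 1/(1-t⁻¹) = 1` for `t = x^j`, `σ(t) = t⁻¹`.
`inj`: `x^i = x^j` gives `i = j` by `Ctx.xj` (and `x ≠ 0`).  `sur`: `t := (ε - 1)/ε = -σ(ε)/ε` (`ε ≠ 0`) has norm one and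
`t ≠ 1`, `ε = 1/(1 - t)`; by `Ctx.gen` `t = x^j`, `j ≠ 0`.  `nrm`, `trc`: `QE.fix`.  `cardF` is an input. -/
def StSUM : Prop := ∀ {k : Type u} {F : Type v} {R : Type w} {K : Type z} [Field k] [Fintype k] [Field F] [Fintype F]
  [Algebra k F] {σ : F ≃ₐ[k] F} [CommRing R] [IsDomain R] [Field K] {χ : AddChar F R} {r : R} {x : F},
  QE σ → Ctx K σ χ r x → Fintype.card F = (Nat.card k) ^ 2 → Sums σ χ x

/-- MODULE BAS (about 120 lines).  Basic facts on `Fun`, `VS`, `Lt`, `XR`, `XL`.  All are immediate: `cen z` is central,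
`cen z * cen z' = cen (z + z')`, `χ(0) = 1`; `XR` is a combination of right translations and so commutes with `Lt u` and with
`XL`.  For `fcen`: `g cen(z) h = cen(z) g h`. -/
structure Bas {k F R K : Type*} [Field k] [Field F] [Fintype F] [Algebra k F] {σ : F ≃ₐ[k] F} [CommRing R] [Field K]
    [Algebra R K] (hσ : QE σ) (χ : AddChar F R) (r : R) : Prop where
  cadd : ∀ z z' : F, z + σ z = 0 → z' + σ z' = 0 → cen hσ (z + z') = cen hσ z * cen hσ z'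
  cinv : ∀ z : F, z + σ z = 0 → (cen hσ z)⁻¹ = cen hσ (-z)
  ccom : ∀ (z : F) (g : Hei hσ), z + σ z = 0 → cen hσ z * g = g * cen hσ z
  fcen : ∀ f ∈ Fun R K hσ χ, ∀ (g h : Hei hσ) (z : F), z + σ z = 0 → f (g * (cen hσ z * h)) = χ (-z) • f (g * h)
  ltcen : ∀ f ∈ Fun R K hσ χ, ∀ z : F, z + σ z = 0 → Lt R (cen hσ z) f = χ z • f
  ltF : ∀ (u : Hei hσ), ∀ f ∈ Fun R K hσ χ, Lt R u f ∈ Fun R K hσ χ
  ltmul : ∀ (u u' : Hei hσ) (f : Hei hσ → K), Lt R (u * u') f = Lt R u (Lt R u' f)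
  xrF : ∀ (ε : F), ∀ f ∈ Fun R K hσ χ, XR r ε f ∈ Fun R K hσ χ
  xlF : ∀ (ε : F), ∀ f ∈ Fun R K hσ χ, XL r ε f ∈ Fun R K hσ χ
  ltV : ∀ (J : Submodule R K) (u : Hei hσ), ∀ f ∈ VS hσ J, Lt R u f ∈ VS hσ J
  xrV : ∀ (J : Submodule R K) (ε : F), ∀ f ∈ VS hσ J, XR r ε f ∈ VS hσ J
  xlV : ∀ (J : Submodule R K) (ε : F), ∀ f ∈ VS hσ J, XL r ε f ∈ VS hσ J
  xrlt : ∀ (ε : F) (u : Hei hσ) (f : Hei hσ → K), XR r ε (Lt R u f) = Lt R u (XR r ε f)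
  xrxl : ∀ (ε ε' : F) (f : Hei hσ → K), XR r ε (XL r ε' f) = XL r ε' (XR r ε f)
  xlsum : ∀ (ε : F) (f : Hei hσ → K), XL r ε f = -(r • ∑ a : F, Lt R (sc hσ ε a) f)
  DF : DD K hσ χ ∈ Fun R K hσ χ
  DV : DD K hσ χ ∈ VS hσ (1 : Submodule R K)
  Dcom : ∀ g h : Hei hσ, DD K hσ χ (g * h) = DD K hσ χ (h * g)
  exp : ∀ f ∈ Fun R K hσ χ, ∀ ε : F, ε + σ ε = 1 → ∀ g, f g = ∑ a : F, f (sc hσ ε a) * DD K hσ χ ((sc hσ ε a)⁻¹ * g)

/-- MODULE BAS.  For `exp`: `(s(a)⁻¹ g).a = g.a - a`, so only `a = g.a` contributes, and `g = cen(z) s(a)` with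
`z = (s(a)⁻¹ g).c`.  For `Dcom`: if `g h` is central then `g h = h g`. -/
def StBAS : Prop := ∀ {k : Type u} {F : Type v} {R : Type w} {K : Type z} [Field k] [Field F] [Fintype F]
  [Algebra k F] {σ : F ≃ₐ[k] F} [CommRing R] [Field K] [Algebra R K] (hσ : QE σ) (χ : AddChar F R) (r : R),
  Bas (K := K) hσ χ r

/-- MODULE CMP (about 200 lines).  PROOF.  For `Tr ε = Tr ε' = 1` and `s := a + b`:
`s_ε(a) s_ε'(b) = (s, ε N(a) + ε' N(b) + b σ(a))` and, with `η := ε + ε' - 1` (so `Tr η = 0`),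
`ε N(a) + ε' N(s - a) + (s - a) σ(a) = η N(a) + ε' N(s) + (1 - ε') s σ(a) - ε' a σ(s)`.
CASE `η ≠ 0`: with `μ := (ε' - 1)/η` (so `σ(μ) = ε'/η`) and `ε'' := ε ε'/η` (so `Tr ε'' = 1`) this is `η N(a - μ s) + ε'' N(s)`,
so `s_ε(a) s_ε'(b) = cen(η N(a - μ s)) s_ε''(s)`.  Sum over `s` and `a' := a - μ s`; for `XR` each term is
`f(g cen(η N(a')) s_ε''(s)) = χ(-η N(a')) f(g s_ε''(s))` (`Bas.fcen`) and `∑_a' χ(-η N(a')) = - q` (`Sums.gauss` for `-η`);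
`(-r)² (-q) = - r`.  For `XL`: `(XL_ε XL_ε' f)(g) = r² ∑ f((s_ε(a) s_ε'(b))⁻¹ g)` and `f((cen(z) h)⁻¹ g) = χ(z) f(h⁻¹ g)`.
CASE `η = 0` (`ε' = σ(ε) = 1 - ε`): the second coordinate is `ε' N(s) + w - σ(w)`, `w = ε s σ(a)`; for `s ≠ 0` the sum over `a` of
`χ(-(w - σ w))` is `0` (`Sums.sw`; `ε s ≠ 0`), for `s = 0` every term is `f(g)`; the sum is `q² f(g)`, `r² q² = 1`. -/
def StCMP : Prop := ∀ {k : Type u} {F : Type v} {R : Type w} {K : Type z} [Field k] [Fintype k] [Field F] [Fintype F]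
  [Algebra k F] {σ : F ≃ₐ[k] F} [CommRing R] [IsDomain R] [Field K] [Algebra R K] (hσ : QE σ)
  {χ : AddChar F R} {r : R} {x : F}, Ctx K σ χ r x → Sums σ χ x → Bas (K := K) hσ χ r →
  ∀ ε ε' : F, ε + σ ε = 1 → ε' + σ ε' = 1 → ∀ f ∈ Fun R K hσ χ,
    (ε + ε' ≠ 1 → XR r ε (XR r ε' f) = XR r (ε * ε' / (ε + ε' - 1)) f ∧
      XL r ε (XL r ε' f) = XL r (ε * ε' / (ε + ε' - 1)) f) ∧
    (ε + ε' = 1 → XR r ε (XR r ε' f) = f ∧ XL r ε (XL r ε' f) = f)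

/-- The facts on the powers of an operator `T` (`T = XR r ε_1` or `XL r ε_1`), `T_j = XR r ε_j` or `XL r ε_j`. -/
structure Pw {R M : Type*} [CommRing R] [AddCommGroup M] [Module R M] (q : ℕ) (V : Submodule R M)
    (T : M →ₗ[R] M) (Tj : ℕ → (M →ₗ[R] M)) : Prop where
  pw : ∀ f ∈ V, ∀ j, 1 ≤ j → j ≤ q → (T ^ j) f = Tj j f
  one : ∀ f ∈ V, (T ^ (q + 1)) f = f
  sum : ∀ f ∈ V, ∑ j ∈ Finset.range (q + 1), (T ^ j) f = 0
  zz : ∀ f ∈ V, T (ZZ q T f) - ZZ q T f = ((q : R) + 1) • f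
  zz' : ∀ f ∈ V, ZZ q T (T f - f) = ((q : R) + 1) • f

/-- MODULE POW (about 180 lines).  PROOF.  Write `t_j = x^j`, `ε_j = 1/(1 - t_j)`.  For `1 ≤ j < q`: `ε_1 + ε_j ≠ 1` and
`ε_1 ε_j/(ε_1 + ε_j - 1) = ε_(j+1)` (because `x^(j+1) ≠ 1`); for `j = q`: `ε_1 + ε_q = 1` (because `x^(q+1) = 1`).  With `StCMP`
this gives `pw` by induction, and `one`.  `sum`: for `j ≥ 1`, `s_{ε_j}(a) = cen((ε_j - ε_1) N(a)) s_{ε_1}(a)`, so
`∑_{j=1}^q (XR r ε_j f)(g) = - r ∑_a (∑_j χ(-(ε_j - ε_1) N(a))) f(g s_{ε_1}(a))`; the inner sum is `∑_{z ∈ F0} χ(-z N(a))`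
(`Sums.ep_sum`), which is `0` if `a ≠ 0` (`Sums.s0` for `n = - N(a)`) and `q` if `a = 0`; so the sum is `- f(g)`.  Add `j = 0`.
(The same for `XL`, with `Lt` and `χ(+…)`.)  `zz`: `(T - 1) ∑_{j=0}^q j T^j = q T^(q+1) - ∑_{j=1}^q T^j = q + 1` on `V` by `one`
and `sum`; `zz'`: the powers of `T` commute. -/
def StPOW : Prop := ∀ {k : Type u} {F : Type v} {R : Type w} {K : Type z} [Field k] [Fintype k] [Field F] [Fintype F]
  [Algebra k F] {σ : F ≃ₐ[k] F} [CommRing R] [IsDomain R] [Field K] [Algebra R K] (hσ : QE σ)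
  {χ : AddChar F R} {r : R} {x : F}, Ctx K σ χ r x → Sums σ χ x → Bas (K := K) hσ χ r →
  Pw (Nat.card k) (Fun R K hσ χ) (XR r (ep x 1)) (fun j => XR r (ep x j)) ∧
  Pw (Nat.card k) (Fun R K hσ χ) (XL r (ep x 1)) (fun j => XL r (ep x j))

/-- MODULE ROT (about 120 lines).  PROOF.  Let `ε = ε_1`, so `x = (ε - 1)/ε`.  For `g = (b, c)` and all `a`:
`s_ε(a) g = (x b, c) s_ε(a + b - x b)` (both sides are `(a + b, ε N(a) + c + b σ(a))`; use `ε x = ε - 1`, `(1 - ε) σ(x) = - ε`,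
`N(x) = 1`).  So with `g' := g` and `rot x g = (x b, c)`: `(XL XR f)(rot x g) = r² ∑_{a,a'} f(s_ε(a)⁻¹ (rot x g) s_ε(a'))
= r² ∑_{a,a'} f(s_ε(a)⁻¹ s_ε(a') g)` (shift `a'`) `= (XL (XL'' …))`: and `s_ε(a)⁻¹ = s_{σ ε}(-a)`, so this is
`r² ∑_{a,b} f(s_{σε}(a) s_ε(b) g)`; as in `StCMP`, case `η = σ ε + ε - 1 = 0`:
`s_{σε}(a) s_ε(b) = cen(w - σ w) s_ε(s)`, `s = a + b`, `w = σ(ε) s σ(a)`, so the sum over `a` vanishes for `s ≠ 0` (`Sums.sw`) and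
the total is `r² q² f(g) = f(g)`. -/
def StROT : Prop := ∀ {k : Type u} {F : Type v} {R : Type w} {K : Type z} [Field k] [Fintype k] [Field F] [Fintype F]
  [Algebra k F] {σ : F ≃ₐ[k] F} [CommRing R] [IsDomain R] [Field K] [Algebra R K] (hσ : QE σ)
  {χ : AddChar F R} {r : R} {x : F}, Ctx K σ χ r x → Sums σ χ x → Bas (K := K) hσ χ r →
  ∀ f ∈ Fun R K hσ χ, ∀ g, XL r (ep x 1) (XR r (ep x 1) f) (rot x g) = f g

/-- MODULE RAD (about 250 lines; may be split).  Radial functions modulo `n = q + 1`.  PROOF.  Write `ε = ε_1`,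
`s(a) = s_ε(a)`.  Put `ρ(a) := χ((ε - σ ε) N(a)) y(s(a)) ∈ R`; then `y(g) = χ(σ(ε) N(g.a) - g.c) ρ(g.a)` for all `g`
(`y ∈ Fun`).  By the first hypothesis `ρ(x a) - ρ(a) ∈ n R`, so `ρ(x^j a) - ρ(a) ∈ n R`.  For `m ∈ k` choose `a_m ∈ F` with
`N(a_m) = m` (`QE.nrm`) and `P(m) := ρ(a_m)`; then `ρ(a) - P(N(a)) ∈ n R` for all `a` (`a = 0` if `N(a) = 0`, else
`a / a_m` has norm one and is a power of `x`).  Let `η_j := σ(ε_j) - σ(ε_1) ∈ F0` and `c_j := - ∑_{m ∈ k} χ(-η_j m) P(m)`,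
`1 ≤ j ≤ q`.  FORMULA: `(X^j D)(g) = (XR r ε_j D)(g) = - r χ(σ(ε_j) N(g.a) - g.c)` (only `a = - g.a` contributes).
So `Z' := ∑_j c_j X^j D` has `Z'(g) = r χ(σ(ε_1) N(g.a) - g.c) ∑_m P(m) ∑_j χ(η_j (N(g.a) - m)) = χ(…) P(N(g.a))`, because
`∑_j χ(η_j m') = ∑_{z ∈ F0} χ(z m')` (`σ` of the elements of trace one are the elements of trace one; `Sums.ep_sum`) is `q` for
`m' = 0` and `0` else.  Hence `y - Z'` has values in `n R`, and the same holds for `X Z' - Z'` (second hypothesis; `X` preserves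
the functions with values in `n R`).  By `X^(q+1) D = D = - ∑_{j=1}^q X^j D` (`Pw`): `X Z' - Z' = ∑_{j=1}^q d_j X^j D` with
`d_1 = - c_1 - c_q`, `d_j = c_(j-1) - c_j - c_q` for `2 ≤ j ≤ q`.  Evaluate at `g` with `N(g.a) = m`:
`∑_j d_j χ(η_j m) ∈ n R` for all `m ∈ k`; multiply by `χ(-η_i m)` and sum over `m`: `q d_i ∈ n R` (`Sums.sk`), so
`d_i ∈ n R`.  So `c_j ≡ - j c_q` modulo `n R`; put `r₀ := - c_q`.  Then `y - r₀ • ZZ q X D` has values in `n R`; divide by `n`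
(`n ≠ 0` in `K`; the quotient is in `Fun` because `Fun` is stable under multiplication by constants of `K`). -/
def StRAD : Prop := ∀ {k : Type u} {F : Type v} {R : Type w} {K : Type z} [Field k] [Fintype k] [Field F] [Fintype F]
  [Algebra k F] {σ : F ≃ₐ[k] F} [CommRing R] [IsDomain R] [Field K] [Algebra R K] [IsFractionRing R K] (hσ : QE σ)
  {χ : AddChar F R} {r : R} {x : F}, Ctx K σ χ r x → Sums σ χ x → Bas (K := K) hσ χ r →
  Pw (Nat.card k) (Fun R K hσ χ) (XR r (ep x 1)) (fun j => XR r (ep x j)) →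
  ∀ y ∈ Lam R K hσ χ, ∀ m₁ ∈ Lam R K hσ χ, ∀ m₂ ∈ Lam R K hσ χ,
    (∀ g, y (rot x g) - y g = (((Nat.card k : ℕ) : R) + 1) • m₁ g) →
    (XR r (ep x 1) y - y = (((Nat.card k : ℕ) : R) + 1) • m₂) →
    ∃ r₀ : R, ∃ m ∈ Lam R K hσ χ,
      y = r₀ • ZZ (Nat.card k) (XR r (ep x 1)) (DD K hσ χ) + (((Nat.card k : ℕ) : R) + 1) • m

/-- MODULE STAR (about 120 lines).  PROOF.  Write `X = XR r ε_1`, `X' = XL r ε_1`, `Z = ZZ q X`, `Z' = ZZ q X'`, `n = q + 1`.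
Let `y := Z' m`, `y' := Z y`, both in `Lam`.  `X' y - y = n m` (`Pw.zz` for `X'`), `X y' - y' = n y`,
`X' y' - y' = Z(X' y - y) = n Z m` (`X'` and `X` commute).  So `X'(X y') = X'(y' + n y) = y' + n Z m + n X' y`, and by `StROT`
`y'(g) = (X' X y')(rot x g) = y'(rot x g) + n (Z m + X' y)(rot x g)`.  By `StRAD` (with
`m₁(g) := - (Z m + X' y)(rot x g)`, which is in `Lam`: `rot x (cen z * g) = cen z * rot x g`) `y' = r₀ Z D + n m''`.  Apply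
`X - 1`: `n y = r₀ n D + n (X m'' - m'')`; divide by `n ≠ 0` (in `K`). -/
def StSTAR : Prop := ∀ {k : Type u} {F : Type v} {R : Type w} {K : Type z} [Field k] [Fintype k] [Field F] [Fintype F]
  [Algebra k F] {σ : F ≃ₐ[k] F} [CommRing R] [IsDomain R] [Field K] [Algebra R K] [IsFractionRing R K] (hσ : QE σ)
  {χ : AddChar F R} {r : R} {x : F}, Ctx K σ χ r x → Sums σ χ x → Bas (K := K) hσ χ r →
  Pw (Nat.card k) (Fun R K hσ χ) (XR r (ep x 1)) (fun j => XR r (ep x j)) →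
  Pw (Nat.card k) (Fun R K hσ χ) (XL r (ep x 1)) (fun j => XL r (ep x j)) →
  ∀ m ∈ Lam R K hσ χ, ∃ r₀ : R, ∃ m' ∈ Lam R K hσ χ,
    ZZ (Nat.card k) (XL r (ep x 1)) m = r₀ • DD K hσ χ + (XR r (ep x 1) m' - m')

/-- MODULE KEY (about 200 lines).  The identity is a combination of conjugates of `Z' = ZZ q (XL r ε_1)` by left translations.
PROOF.  Write `s(a) = s_{ε_1}(a)`.  On `Fun`: `Z' = ∑_{j=1}^q j XL r ε_j = ∑_a ζ(a) Lt s(a)`, `ζ(a) := - r ∑_{j=1}^q j χ((ε_j - ε_1) N(a))`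
(`s_{ε_j}(a) = cen((ε_j - ε_1) N(a)) s(a)`, `Bas.ltcen`).  `s(b) s(a) = cen(κ) s(a) s(b)`, `κ = a σ(b) - b σ(a)`.  So for fixed
`a₀`: `∑_b χ(-κ(b, a₀)) Lt(s(b)) Z' Lt(s(b)⁻¹) = ∑_a ζ(a) (∑_b χ(κ(b, a) - κ(b, a₀))) Lt(s(a)) = q² ζ(a₀) Lt(s(a₀))`
(`κ(b, a) - κ(b, a₀) = d σ(b) - b σ(d)`, `d = a - a₀`; `Sums.sw`, `Sums.cardF`).  If `ζ(a₀)` is a unit, apply `Lt(s(a₀)⁻¹)` and divide.
A unit exists: else all `ζ(a)` are in the maximal ideal; every `m ∈ k` is a norm, so `∑_{j=1}^q j χ((ε_j - ε_1) m)` is in it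
for all `m ∈ k`; sum over `m ∈ k`: by `Sums.sk` only `j = 1` survives and gives `q`, a unit, a contradiction. -/
def StKEY : Prop := ∀ {k : Type u} {F : Type v} {R : Type w} {K : Type z} [Field k] [Fintype k] [Field F] [Fintype F]
  [Algebra k F] {σ : F ≃ₐ[k] F} [CommRing R] [IsDomain R] [IsLocalRing R] [Field K] [Algebra R K] (hσ : QE σ)
  {χ : AddChar F R} {r : R} {x : F}, Ctx K σ χ r x → Sums σ χ x → Bas (K := K) hσ χ r →
  Pw (Nat.card k) (Fun R K hσ χ) (XL r (ep x 1)) (fun j => XL r (ep x j)) →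
  ∃ (α : F → R) (u v : F → Hei hσ), ∀ f ∈ Fun R K hσ χ,
    f = ∑ b : F, α b • Lt R (u b) (ZZ (Nat.card k) (XL r (ep x 1)) (Lt R (v b) f))

/-! ### Chains -/

/-- MODULE ONE (about 70 lines).  A chain of `R`-submodules of `K` with the reduction condition has at most one strict step.
PROOF: as `OG.Bd_single` (`Pool/Agent/Helper60/OG/Base.lean`), or deduce it from `Bd_single` for functions on one point. -/
def StONE : Prop := ∀ {R : Type w} {K : Type z} [CommRing R] [IsDomain R] [ValuationRing R] [Field K] [Algebra R K]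
  [IsFractionRing R K] (E : ℕ → Submodule R K), Monotone E →
  (∀ i, ∀ a ∈ IsLocalRing.maximalIdeal R, ∀ c ∈ E i, a • c ∈ E 0) → ∀ n, (steps E n).card ≤ 1

/-- MODULE CH1 (about 150 lines).  PROOF.  Write `X = XR r ε_1`, `Z' = ZZ q (XL r ε_1)`, `D = DD K hσ χ`.  Let
`E i := {c ∈ K | c • D ∈ P i}` (an `R`-submodule of `K`; `c • D` is the pointwise product), a chain as in `StONE`.  CLAIM: if
`E i = E (i+1)` then `P i = P (i+1)`.  Let `f ∈ P (i+1)`.  By `StKEY` `f = ∑ α_b Lt(u_b) Z' f'`, `f' = Lt(v_b) f ∈ P (i+1)`.  It is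
enough to show `Z' f' ∈ P i`.  If `f' ≠ 0` there is `g₀` such that all values of `f'` are `R`-multiples of `κ := f'(g₀) ≠ 0`
(finitely many values in the fraction field of a valuation ring), `κ ∈ J`.  So `f' = κ • m`, `m ∈ Lam` (`Fun` is stable under
multiplication by constants of `K`).  By `StSTAR` `Z' f' = κ r₀ • D + (X - 1)(κ • m')` and `κ • m' ∈ Fun ⊓ VS J`, so
`(X - 1)(κ • m') ∈ P 0 ≤ P (i+1)`; `Z' f' ∈ P (i+1)` (`Z'` is an `R`-combination of products of `Lt`'s, `Bas.xlsum`); so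
`κ r₀ ∈ E (i+1) = E i` and `Z' f' ∈ P i`. -/
def StCH1 : Prop := ∀ {k : Type u} {F : Type v} {R : Type w} {K : Type z} [Field k] [Fintype k] [Field F] [Fintype F]
  [Algebra k F] {σ : F ≃ₐ[k] F} [CommRing R] [IsDomain R] [ValuationRing R] [Field K] [Algebra R K] [IsFractionRing R K]
  (hσ : QE σ) {χ : AddChar F R} {r : R} {x : F}, Ctx K σ χ r x → Sums σ χ x → Bas (K := K) hσ χ r →
  ∀ (J : Submodule R K) (P : ℕ → Submodule R (Hei hσ → K)), Monotone P →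
    (∀ i, P i ≤ Fun R K hσ χ ⊓ VS hσ J) → (∀ i, ∀ f ∈ P i, ∀ u, Lt R u f ∈ P i) →
    (∀ f ∈ Fun R K hσ χ ⊓ VS hσ J, XR r (ep x 1) f - f ∈ P 0) →
    (∀ i, ∀ a ∈ IsLocalRing.maximalIdeal R, ∀ f ∈ P i, a • f ∈ P 0) → ∀ n, (steps P n).card ≤ 1

/-- MODULE CH2 (about 130 lines).  PROOF.  Write `X = XR r ε_1`, `V := Fun ⊓ VS J`.  Apply `StCH1` to `A i := Q i ⊓ VS J` and to
`B i := (Q i).map (X - 1) ⊔ V.map (X - 1)` (both satisfy the hypotheses; `X` preserves `Fun` and `VS J` and commutes with `Lt`).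
`X - 1` is injective on `Fun` (`Pw.zz'`: `ZZ (X f - f) = (q + 1) f`, `q + 1 ≠ 0` in `K`).  If `A i = A (i+1)` and
`B i = B (i+1)` then `Q i = Q (i+1)`: for `f ∈ Q (i+1)`: `(X - 1) f = (X - 1) f₁ + (X - 1) f₂`, `f₁ ∈ Q i`, `f₂ ∈ V`, so
`f = f₁ + f₂`, `f₂ ∈ Q (i+1) ⊓ VS J = A (i+1) = A i`.  Use `OG.steps_le_two`. -/
def StCH2 : Prop := ∀ {k : Type u} {F : Type v} {R : Type w} {K : Type z} [Field k] [Fintype k] [Field F] [Fintype F]
  [Algebra k F] {σ : F ≃ₐ[k] F} [CommRing R] [IsDomain R] [ValuationRing R] [Field K] [Algebra R K] [IsFractionRing R K]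
  (hσ : QE σ) {χ : AddChar F R} {r : R} {x : F}, Ctx K σ χ r x → Sums σ χ x → Bas (K := K) hσ χ r →
  ∀ (J : Submodule R K) (Q : ℕ → Submodule R (Hei hσ → K)), Monotone Q →
    (∀ i, Q i ≤ Fun R K hσ χ) → (∀ i, ∀ f ∈ Q i, ∀ u, Lt R u f ∈ Q i) →
    (∀ f ∈ Fun R K hσ χ ⊓ VS hσ J, XR r (ep x 1) f - f ∈ Q 0) →
    (∀ i, ∀ f ∈ Q i, XR r (ep x 1) f - f ∈ VS hσ J) →
    (∀ i, ∀ a ∈ IsLocalRing.maximalIdeal R, ∀ f ∈ Q i, a • f ∈ Q 0) → ∀ n, (steps Q n).card ≤ 2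

/-- MODULE CH3 (about 120 lines).  PROOF.  By `StONE` `J` has at most one strict step before `n`.  If there is none, apply
`StCH2` to the sequence `Q (min i n)` and `J 0`.  If `J s ≠ J (s+1)`, `s < n`: `J i = J 0` for `i ≤ s`, `J i = J (s+1)` for
`s + 1 ≤ i ≤ n`; apply `StCH2` to `Q (min i s)` with `J 0` and to `Q (min (s + 1 + i) n)` with `J (s+1)` (reduction condition:
`a • f ∈ Q 0 ≤ Q (s+1)`).  The steps of the pair before `n` are among the steps of the first sequence, `s`, and the shifted steps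
of the second sequence: at most `2 + 1 + 2`. -/
def StCH3 : Prop := ∀ {k : Type u} {F : Type v} {R : Type w} {K : Type z} [Field k] [Fintype k] [Field F] [Fintype F]
  [Algebra k F] {σ : F ≃ₐ[k] F} [CommRing R] [IsDomain R] [ValuationRing R] [Field K] [Algebra R K] [IsFractionRing R K]
  (hσ : QE σ) {χ : AddChar F R} {r : R} {x : F}, Ctx K σ χ r x → Sums σ χ x → Bas (K := K) hσ χ r →
  ∀ (J : ℕ → Submodule R K) (Q : ℕ → Submodule R (Hei hσ → K)), Monotone J → Monotone Q →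
    (∀ i, Q i ≤ Fun R K hσ χ) → (∀ i, ∀ f ∈ Q i, ∀ u, Lt R u f ∈ Q i) →
    (∀ i, ∀ f ∈ Fun R K hσ χ ⊓ VS hσ (J i), XR r (ep x 1) f - f ∈ Q i) →
    (∀ i, ∀ f ∈ Q i, XR r (ep x 1) f - f ∈ VS hσ (J i)) →
    (∀ i, ∀ a ∈ IsLocalRing.maximalIdeal R, ∀ f ∈ Q i, a • f ∈ Q 0) →
    (∀ i, ∀ a ∈ IsLocalRing.maximalIdeal R, ∀ c ∈ J i, a • c ∈ J 0) →
    ∀ n, (steps (fun i => (J i, Q i)) n).card ≤ 5

end Pool.Agent.Helper70.GUM
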