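import Pool.Agent.Helper70.GUM.St1

/-!
# Project GUM (MP_0bd1d1_al), base case `GU_3(q)`, part 2: actions with the combinatorics of the isotropic points

`G3 hσ H S`: the set `S` consists of the point `w0` and of the points `w(g)`, `g` in the Heisenberg group; `H` contains the
translations `e(g)`, the inversion `n` and the torus elements `tor t`.
THEOREM (`StFIN3`).  `Bd R K H S 7`.
Notation for `N : Submodule R (Ω → K)`: `Jn N = {c | c • Θ_1 ∈ N}`, `Θ_b(w(g)) = χ(-b g.a)`, `Θ_b(w0) = 0`; `Qn N` is the set of the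
`φ ∈ Fun` whose extension by zero is in `N`.
-/

set_option autoImplicit false

namespace Pool.Agent.Helper70.GUM

open Module OG UN
open scoped Classical

universe u v w z y o

/-- An action with the combinatorics of the isotropic points of `GU_3(q)`. -/
structure G3 {k F : Type*} [Field k] [Field F] [Algebra k F] {σ : F ≃ₐ[k] F} (hσ : QE σ) {E Ω : Type*} [Group E]
    [MulAction E Ω] (H : Set E) (S : Set Ω) where
  /-- the affine points -/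
  w : Hei hσ → Ω
  /-- the point at infinity -/
  w0 : Ω
  /-- translations -/
  e : Hei hσ → E
  /-- inversion -/
  n : E
  /-- torus -/
  tor : F → E
  inj : Function.Injective w
  ne : ∀ g, w g ≠ w0
  cov : ∀ s, s ∈ S ↔ s = w0 ∨ ∃ g, s = w g
  e_mem : ∀ g, e g ∈ H
  e_w : ∀ g h, e g • w h = w (g * h)
  e_w0 : ∀ g, e g • w0 = w0
  n_mem : n ∈ H
  n_w0 : n • w0 = w 1
  n_w1 : n • w 1 = w0
  n_w : ∀ g, g ≠ 1 → n • w g = w (ivn g)
  t_mem : ∀ t, t ≠ 0 → tor t ∈ H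
  t_w0 : ∀ t, t ≠ 0 → tor t • w0 = w0
  t_w : ∀ t, t ≠ 0 → ∀ g, tor t • w g = w (scl t g)

section defs

variable {k F R K : Type*} [Field k] [Field F] [Algebra k F] {σ : F ≃ₐ[k] F} {hσ : QE σ}
  [CommRing R] [Field K] [Algebra R K] {E Ω : Type*} [Group E] [MulAction E Ω] {H : Set E} {S : Set Ω}

/-- Extension by zero, `(ext φ)(w(g)) = φ(g)`. -/
noncomputable def G3.ext (G : G3 hσ H S) (φ : Hei hσ → K) : Ω → K :=
  fun s => if h : ∃ g, s = G.w g then φ h.choose else 0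

theorem G3.ext_w (G : G3 hσ H S) (φ : Hei hσ → K) (g : Hei hσ) : G.ext φ (G.w g) = φ g := by
  have h : ∃ g', G.w g = G.w g' := ⟨g, rfl⟩
  rw [G3.ext, dif_pos h]
  congr 1
  exact (G.inj h.choose_spec).symm

theorem G3.ext_no (G : G3 hσ H S) (φ : Hei hσ → K) (s : Ω) (hs : ∀ g, s ≠ G.w g) : G.ext φ s = 0 := by
  rw [G3.ext, dif_neg]
  rintro ⟨g, hg⟩
  exact hs g hg

theorem G3.ext_w0 (G : G3 hσ H S) (φ : Hei hσ → K) : G.ext φ G.w0 = 0 :=
  G.ext_no φ _ (fun g => (G.ne g).symm)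

/-- The indicator function of `w0`. -/
noncomputable def G3.del (K : Type*) [Field K] (G : G3 hσ H S) : Ω → K := fun s => if s = G.w0 then 1 else 0

/-- `Θ_b`. -/
noncomputable def G3.th (K : Type*) {R : Type*} [CommRing R] [Field K] [Algebra R K] (G : G3 hσ H S)
    (χ : AddChar F R) (b : F) : Ω → K :=
  G.ext (fun g : Hei hσ => algebraMap R K (χ (-(b * g.a))))

/-- `N` is stable under `H` and its elements are supported on `S`. -/
structure HS (H : Set E) (S : Set Ω) (N : Submodule R (Ω → K)) : Prop where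
  sup : ∀ f ∈ N, ∀ s, s ∉ S → f s = 0
  stab : ∀ g ∈ H, ∀ f ∈ N, act g f ∈ N

/-- The `c` with `c Θ_1 ∈ N`. -/
noncomputable def Jn (G : G3 hσ H S) (χ : AddChar F R) (N : Submodule R (Ω → K)) : Submodule R K where
  carrier := {c | (fun s => c * G.th K χ 1 s) ∈ N}
  zero_mem' := by
    have : (fun s => (0 : K) * G.th K χ 1 s) = 0 := by
      funext s
      simp
    change (fun s => (0 : K) * G.th K χ 1 s) ∈ N
    rw [this]
    exact zero_mem _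
  add_mem' := by
    intro a b ha hb
    have h : (fun s => (a + b) * G.th K χ 1 s) = (fun s => a * G.th K χ 1 s) + (fun s => b * G.th K χ 1 s) := by
      funext s
      simp [add_mul]
    change (fun s => (a + b) * G.th K χ 1 s) ∈ N
    rw [h]
    exact N.add_mem ha hb
  smul_mem' := by
    intro r a ha
    have h : (fun s => (r • a) * G.th K χ 1 s) = r • (fun s => a * G.th K χ 1 s) := by
      funext s
      simp
    change (fun s => (r • a) * G.th K χ 1 s) ∈ N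
    rw [h]
    exact N.smul_mem r ha

theorem mem_Jn {G : G3 hσ H S} {χ : AddChar F R} {N : Submodule R (Ω → K)} {c : K} :
    c ∈ Jn G χ N ↔ (fun s => c * G.th K χ 1 s) ∈ N := Iff.rfl

theorem G3.ext_add (G : G3 hσ H S) (φ φ' : Hei hσ → K) : G.ext (φ + φ') = G.ext φ + G.ext φ' := by
  funext s
  by_cases h : ∃ g, s = G.w g
  · obtain ⟨g, rfl⟩ := h
    rw [Pi.add_apply, G.ext_w, G.ext_w, G.ext_w, Pi.add_apply]
  · have h' : ∀ g, s ≠ G.w g := fun g hg => h ⟨g, hg⟩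
    rw [Pi.add_apply, G.ext_no _ s h', G.ext_no _ s h', G.ext_no _ s h', add_zero]

theorem G3.ext_smul (G : G3 hσ H S) (c : R) (φ : Hei hσ → K) : G.ext (c • φ) = c • G.ext φ := by
  funext s
  by_cases h : ∃ g, s = G.w g
  · obtain ⟨g, rfl⟩ := h
    rw [Pi.smul_apply, G.ext_w, G.ext_w, Pi.smul_apply]
  · have h' : ∀ g, s ≠ G.w g := fun g hg => h ⟨g, hg⟩
    rw [Pi.smul_apply, G.ext_no _ s h', G.ext_no _ s h', smul_zero]

theorem G3.ext_zero (G : G3 hσ H S) : G.ext (0 : Hei hσ → K) = 0 := by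
  funext s
  by_cases h : ∃ g, s = G.w g
  · obtain ⟨g, rfl⟩ := h
    rw [G.ext_w]
    rfl
  · exact G.ext_no _ s (fun g hg => h ⟨g, hg⟩)

/-- The functions of `Fun` whose extension is in `N`. -/
noncomputable def Qn (G : G3 hσ H S) (χ : AddChar F R) (N : Submodule R (Ω → K)) :
    Submodule R (Hei hσ → K) where
  carrier := {φ | φ ∈ Fun R K hσ χ ∧ G.ext φ ∈ N}
  zero_mem' := by
    refine ⟨zero_mem _, ?_⟩
    rw [G.ext_zero]
    exact zero_mem _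
  add_mem' := by
    intro a b ha hb
    refine ⟨Submodule.add_mem _ ha.1 hb.1, ?_⟩
    rw [G.ext_add]
    exact N.add_mem ha.2 hb.2
  smul_mem' := by
    intro r a ha
    refine ⟨Submodule.smul_mem _ r ha.1, ?_⟩
    rw [G.ext_smul]
    exact N.smul_mem r ha.2

theorem mem_Qn {G : G3 hσ H S} {χ : AddChar F R} {N : Submodule R (Ω → K)} {φ : Hei hσ → K} :
    φ ∈ Qn G χ N ↔ φ ∈ Fun R K hσ χ ∧ G.ext φ ∈ N := Iff.rfl

end defs

/-- The action on functions (MODULE ACT). -/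
structure Ac {k F K : Type*} [Field k] [Field F] [Algebra k F] {σ : F ≃ₐ[k] F} {hσ : QE σ}
    [Field K] {E Ω : Type*} [Group E] [MulAction E Ω] {H : Set E} {S : Set Ω}
    (G : G3 hσ H S) : Prop where
  ew : ∀ (g h : Hei hσ) (f : Ω → K), act (G.e g) f (G.w h) = f (G.w (g⁻¹ * h))
  ew0 : ∀ (g : Hei hσ) (f : Ω → K), act (G.e g) f G.w0 = f G.w0
  nw0 : ∀ (f : Ω → K), act G.n f G.w0 = f (G.w 1)
  nw1 : ∀ (f : Ω → K), act G.n f (G.w 1) = f G.w0
  nw : ∀ (g : Hei hσ) (f : Ω → K), g ≠ 1 → act G.n f (G.w g) = f (G.w (ivn g))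
  tw : ∀ (t : F) (g : Hei hσ) (f : Ω → K), t ≠ 0 → act (G.tor t) f (G.w g) = f (G.w (scl t⁻¹ g))
  tw0 : ∀ (t : F) (f : Ω → K), t ≠ 0 → act (G.tor t) f G.w0 = f G.w0
  eext : ∀ (g : Hei hσ) (φ : Hei hσ → K), act (G.e g) (G.ext φ) = G.ext (fun h => φ (g⁻¹ * h))
  text : ∀ (t : F) (φ : Hei hσ → K), t ≠ 0 → act (G.tor t) (G.ext φ) = G.ext (fun h => φ (scl t⁻¹ h))
  dec : ∀ f : Ω → K, (∀ s, s ∉ S → f s = 0) → f = (fun s => f G.w0 * G.del K s) + G.ext (fun g => f (G.w g))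

/-- MODULE ACT (about 120 lines).  PROOF.  `act g f s = f(g⁻¹ s)`; `(e g)⁻¹ • w h = w (g⁻¹ h)` because `e g • w (g⁻¹ h) = w h`;
`n⁻¹ • w g = w (ivn g)` because `ivn g ≠ 1` and `ivn (ivn g) = g` for `g ≠ 1`; `(tor t)⁻¹ • w g = w (scl t⁻¹ g)` because
`scl t (scl t⁻¹ g) = g`.  `eext`: at a point `s` which is not a `w h` the point `(e g)⁻¹ • s` is not a `w h'` either. -/
def StACT : Prop := ∀ {k : Type u} {F : Type v} {K : Type z} {E : Type y} {Ω : Type o} [Field k] [Field F]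
  [Algebra k F] {σ : F ≃ₐ[k] F} [Field K] {hσ : QE σ} [Group E] [MulAction E Ω] {H : Set E} {S : Set Ω}
  (G : G3 hσ H S), Ac (K := K) G

/-- MODULE BL0 (about 150 lines).  PROOF.  (a) `act (tor t) (Θ_b) = Θ_{b/σ(t)}` (`Ac.text`, `scl_a`: `(scl t⁻¹ g).a = σ(t)⁻¹ g.a`), so the
modules `{c | c Θ_b ∈ N}`, `b ≠ 0`, are all equal.  (b) `P := ∑_{u ∈ Hei} χ(-b u.a) • act (e u) f ∈ N`; `P(w h) = χ(-b h.a) ∑_v χ(b v.a) f(w v)`
(substitute `v = u⁻¹ h`, `u.a = h.a - v.a`), and `P(w0) = f(w0) ∑_u χ(-b u.a) = 0` for `b ≠ 0` (the fibres of `u ↦ u.a` are the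
cosets of the centre and have `q` elements; `Sums.sF`).  Elements of `N` vanish outside `S`.  So `P = c_b(f) Θ_b` for `b ≠ 0`. -/
def StBL0 : Prop := ∀ {k : Type u} {F : Type v} {R : Type w} {K : Type z} {E : Type y} {Ω : Type o} [Field k] [Fintype k]
  [Field F] [Fintype F] [Algebra k F] {σ : F ≃ₐ[k] F} [CommRing R] [IsDomain R] [Field K] [Algebra R K] {hσ : QE σ}
  [Group E] [MulAction E Ω] {H : Set E} {S : Set Ω} (G : G3 hσ H S) {χ : AddChar F R} {x : F},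
  Sums σ χ x → Ac (K := K) G → ∀ N : Submodule R (Ω → K), HS H S N → ∀ b : F, b ≠ 0 →
    (∀ c : K, c ∈ Jn G χ N ↔ (fun s => c * G.th K χ b s) ∈ N) ∧
    (∀ f ∈ N, ∑ v : Hei hσ, χ (b * v.a) • f (G.w v) ∈ Jn G χ N) ∧
    (∀ f ∈ N, ∑ v : Hei hσ, χ (-(b * v.a)) • act (G.e v) f =
      (fun s => (∑ v : Hei hσ, χ (b * v.a) • f (G.w v)) * G.th K χ b s))

/-- MODULE BL1 (about 250 lines; may be split).  Block sums are in `J = Jn G χ N`.
PROOF.  (a) For `f' ∈ N` and `a ∈ F` let `β_a(f') := f'(w0) + ∑_{v ∈ Hei, v.a = a} f'(w v)`.  Then `β_a(f') - β_{a'}(f') ∈ J`: by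
Fourier inversion on `F` (`Sums.sF`, `Sums.cardF`) `q² ∑_{v.a = a} f'(w v) = ∑_{b ∈ F} χ(-b a) c_b(f')`, `c_b(f') = ∑_v χ(b v.a) f'(w v)`, the
term `b = 0` cancels in the difference, the others are in `J` by `StBL0`; `q²` is invertible in `R` (`Ctx.inv`).
(b) It is enough to treat `g = 1` (replace `φ` by `h ↦ φ(g h)`, which is in `Qn`: `Ac.eext` for `e(g⁻¹)`).  Let `f := G.ext φ ∈ N`,
`Tr(c) ≠ 0`, choose `β₀` with `N(β₀) = Tr(c)` (`Sums.trc`, `QE.nrm`), `g₀ := pt β₀ c`, `a₀ := - 1/σ(β₀)`,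
`f' := act n (act (e(g₀⁻¹)) f) ∈ N`.  Values: `f'(w0) = f(w g₀)`, `f'(w 1) = f(w0) = 0`, and for `v ≠ 1`:
`f'(w v) = f(w(g₀ · ivn v))`, `g₀ · ivn v = (β₀ + v.a/v.c, c + (1 + v.a σ(β₀))/v.c)`.  For `v.a = a₀` the second coordinate is `c`,
and `v ↦ β₀ + a₀/v.c` is a bijection from `{v : v.a = a₀}` to `{b : N(b) = Tr(c), b ≠ β₀}` (inverse: `v.c = a₀/(b - β₀)`; the
equation `Tr(v.c) = N(a₀)` is equivalent to `N(b) = N(β₀)`).  So `β_{a₀}(f') = blk φ 1 c`.  For `v.a = 0`, `v ≠ 1`: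
`g₀ · ivn v = (β₀, c + 1/v.c)`, and `v.c` runs over `F0 \ {0}`, so
`β_0(f') = φ(g₀) + 0 + ∑_{z ∈ F0, z ≠ 0} φ((β₀, c + z)) = ∑_{z ∈ F0} χ(-z) φ(g₀) = 0` (`Sums.s0`).  Hence `blk φ 1 c = β_{a₀}(f') - β_0(f') ∈ J`. -/
def StBL1 : Prop := ∀ {k : Type u} {F : Type v} {R : Type w} {K : Type z} {E : Type y} {Ω : Type o} [Field k] [Fintype k]
  [Field F] [Fintype F] [Algebra k F] {σ : F ≃ₐ[k] F} [CommRing R] [IsDomain R] [Field K] [Algebra R K] {hσ : QE σ}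
  [Group E] [MulAction E Ω] {H : Set E} {S : Set Ω} (G : G3 hσ H S) {χ : AddChar F R} {r : R} {x : F},
  Ctx K σ χ r x → Sums σ χ x → Ac (K := K) G → ∀ N : Submodule R (Ω → K), HS H S N →
    ∀ φ ∈ Qn G χ N, ∀ (g : Hei hσ) (c : F), c + σ c ≠ 0 → blk φ g c ∈ Jn G χ N

/-- MODULE BL2 (about 250 lines; may be split).  PROOF.  Let `κ ∈ J = Jn G χ N`.  (a) For `a ∈ F` let `1_a := G.ext (indicator of v.a = a)`.
`q² 1_a = ∑_{b ∈ F} χ(b a) Θ_b` (`Sums.sF`), so `κ (1_a - 1_{a'}) ∈ N` (the term `b = 0` cancels; `StBL0`).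
(b) It is enough to treat `g = 1` (`Ac.eext` for `e(g)`; `DD((g h)⁻¹ g') = DD(h⁻¹ (g⁻¹ g'))`).  Take `β₀, g₀, a₀` as in `StBL1` and apply
`act (e g₀) ∘ act n` to `κ (1_{a₀} - 1_0) ∈ N`: the result is `κ` times the function `∑_{b ≠ β₀} δ_{w(b,c)} - δ_{w0} - ∑_{z ∈ F0, z ≠ 0} δ_{w(β₀, c+z)}`
(sum over the `b` with `N(b) = Tr(c)`; the same bijections as in `StBL1`).  (c) Apply `∑_{z ∈ F0} χ(-z) act(e(cen z))`: `δ_{w h}` becomes
`G.ext (g' ↦ DD(h⁻¹ g'))` (value `χ(-z)` at `z h`), `δ_{w0}` becomes `0` (`Sums.s0`), and `δ_{w(β₀, c+z)}` becomes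
`χ(z)` times `G.ext (g' ↦ DD(g₀⁻¹ g'))`; `∑_{z ≠ 0} χ(z) = -1`.  So the total is `κ G.ext (g' ↦ ∑_b DD((pt b c)⁻¹ g'))`. -/
def StBL2 : Prop := ∀ {k : Type u} {F : Type v} {R : Type w} {K : Type z} {E : Type y} {Ω : Type o} [Field k] [Fintype k]
  [Field F] [Fintype F] [Algebra k F] {σ : F ≃ₐ[k] F} [CommRing R] [IsDomain R] [Field K] [Algebra R K] {hσ : QE σ}
  [Group E] [MulAction E Ω] {H : Set E} {S : Set Ω} (G : G3 hσ H S) {χ : AddChar F R} {r : R} {x : F},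
  Ctx K σ χ r x → Sums σ χ x → Bas (K := K) hσ χ r → Ac (K := K) G → ∀ N : Submodule R (Ω → K), HS H S N →
    ∀ κ ∈ Jn G χ N, ∀ (g : Hei hσ) (c : F), c + σ c ≠ 0 →
      (fun g' : Hei hσ => κ * ∑ b ∈ Finset.univ.filter (fun b : F => c + σ c = b * σ b),
        DD K hσ χ ((g * pt hσ b c)⁻¹ * g')) ∈ Qn G χ N

/-- MODULE XB (about 150 lines).  PROOF.  Write `X = XR r ε_1`, `ε_j = ep x j`; `2 ≤ q`.  On `Fun`: `X (X f) = XR r ε_2 f` (`Pw.pw`).
`∑_a f(g s_ε(a)) = f(g) + ∑_{d ∈ k, d ≠ 0} ∑_{N(a) = d} f(g (a, ε d))` for `Tr ε = 1`, and for `N(a) = d`: `(a, ε d) = pt a (ε d)`,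
`Tr(ε d) = d`; so `∑_a f(g s_ε(a)) = f(g) + ∑_{d ≠ 0} blk f g (ε d)`.  For `f = D_u : g' ↦ DD(u⁻¹ g')` (in `Fun`, `Bas.ltF`):
`f(g' s) = DD(u⁻¹ g' s) = DD(s u⁻¹ g') = DD((u s⁻¹)⁻¹ g')` (`Bas.Dcom`), and `(a, ε d)⁻¹ = (-a, σ(ε) d)`. -/
def StXB : Prop := ∀ {k : Type u} {F : Type v} {R : Type w} {K : Type z} [Field k] [Fintype k]
  [Field F] [Fintype F] [Algebra k F] {σ : F ≃ₐ[k] F} [CommRing R] [IsDomain R] [Field K] [Algebra R K] (hσ : QE σ)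
  {χ : AddChar F R} {r : R} {x : F}, Ctx K σ χ r x → Sums σ χ x → Bas (K := K) hσ χ r →
  Pw (Nat.card k) (Fun R K hσ χ) (XR r (ep x 1)) (fun j => XR r (ep x j)) →
  (∀ f ∈ Fun R K hσ χ, ∀ g, (XR r (ep x 1) (XR r (ep x 1) f) - XR r (ep x 1) f) g =
    -(r • ∑ d ∈ Finset.univ.filter (fun d : k => d ≠ 0),
      (blk f g (ep x 2 * algebraMap k F d) - blk f g (ep x 1 * algebraMap k F d)))) ∧
  (∀ u g : Hei hσ, (XR r (ep x 1) (XR r (ep x 1) (Lt R u (DD K hσ χ))) - XR r (ep x 1) (Lt R u (DD K hσ χ))) g =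
    -(r • ∑ d ∈ Finset.univ.filter (fun d : k => d ≠ 0),
      ((∑ b ∈ Finset.univ.filter (fun b : F => σ (ep x 2) * algebraMap k F d + σ (σ (ep x 2) * algebraMap k F d) =
          b * σ b), DD K hσ χ ((u * pt hσ b (σ (ep x 2) * algebraMap k F d))⁻¹ * g)) -
        ∑ b ∈ Finset.univ.filter (fun b : F => σ (ep x 1) * algebraMap k F d + σ (σ (ep x 1) * algebraMap k F d) =
          b * σ b), DD K hσ χ ((u * pt hσ b (σ (ep x 1) * algebraMap k F d))⁻¹ * g))))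

/-- MODULE SND (about 150 lines).  The sandwich.  PROOF.  Write `X = XR r ε_1`, `J = Jn G χ N`.  `Tr(ε d) = d ≠ 0`.
(2) For `f ∈ Qn`: `X(X f) - X f` has values in `J` (`StXB`, `StBL1`), and `X f - f = X^q (X (X f) - X f)` (`X^(q+1) = 1` on `Fun`, `Pw.one`), and
`X^q` preserves `VS J`.  (1) For `f ∈ Fun ⊓ VS J` put `f' := X^q f ∈ Fun ⊓ VS J`; then `X f - f = X (X f') - X f'` and
`f' = ∑_a f'(s(a)) • Lt (s(a)) D` (`Bas.exp` with `ε = ε_1`); `X` commutes with the multiplication by constants of `K`, so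
`X f - f = ∑_a f'(s(a)) • (X X - X)(Lt (s(a)) D)`, and each term is in `Qn` by `StXB` and `StBL2` (`κ = f'(s(a)) ∈ J`). -/
def StSND : Prop := ∀ {k : Type u} {F : Type v} {R : Type w} {K : Type z} {E : Type y} {Ω : Type o} [Field k] [Fintype k]
  [Field F] [Fintype F] [Algebra k F] {σ : F ≃ₐ[k] F} [CommRing R] [IsDomain R] [Field K] [Algebra R K] {hσ : QE σ}
  [Group E] [MulAction E Ω] {H : Set E} {S : Set Ω} (G : G3 hσ H S) {χ : AddChar F R} {r : R} {x : F},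
  Ctx K σ χ r x → Sums σ χ x → Bas (K := K) hσ χ r →
  Pw (Nat.card k) (Fun R K hσ χ) (XR r (ep x 1)) (fun j => XR r (ep x j)) →
  Ac (K := K) G → ∀ N : Submodule R (Ω → K), HS H S N →
    (∀ f ∈ Fun R K hσ χ ⊓ VS hσ (Jn G χ N), XR r (ep x 1) f - f ∈ Qn G χ N) ∧
    (∀ f ∈ Qn G χ N, XR r (ep x 1) f - f ∈ VS hσ (Jn G χ N))

/-- MODULE GEN3 (about 200 lines).  A module `N` is determined by `A, B, J, Q`.  Let `N ≤ M` be `HS` modules with
(A) `{c | c δ ∈ N} = {c | c δ ∈ M}`, `δ = G.del`; (B) `{c | ∃ c', c' δ + c Θ_0 ∈ N}` `=` the same for `M`; `Jn N = Jn M`;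
`Qn N = Qn M`.  Then `N = M`.  PROOF.  Let `f ∈ M`.  For `λ ∈ k` put `f_λ := ∑_{z ∈ F0} χ(-λ z) • act (e(cen z)) f ∈ M`.
`∑_{λ ∈ k} f_λ = q f` (`Sums.sk`; `e(cen 0) = e 1` acts trivially on `S`).  `λ ≠ 0`: take `t ∈ F` with `N(t) = λ` (`QE.nrm`),
`f'' := act (tor t) f_λ`; `act (e(cen z)) f'' = χ(z) f''` (because `e(cen z) tor t` and `tor t e(cen(z/λ))` agree on `S`:
`scl t (cen(z/λ) g) = cen z · scl t g`), so `f''(w0) = 0` (`Ctx.chi`) and `f'' = G.ext φ` with `φ ∈ Fun` (`Ac.dec`), `φ ∈ Qn M = Qn N`; so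
`f'' ∈ N`, `f_λ = act (tor t⁻¹) f'' ∈ N` (they agree on `S`).  `λ = 0`: for `b ∈ F` let `P_b := ∑_{v ∈ Hei} χ(-b v.a) • act (e v) f`;
`∑_{b ∈ F} P_b = q² f_0` (`Sums.sF`).  `b ≠ 0`: `P_b = c Θ_b` with `c ∈ Jn M = Jn N` (`StBL0`), so `P_b ∈ N`.  `b = 0`:
`P_0 = q³ f(w0) δ + c₀ Θ_0`, `c₀ = ∑_v f(w v)`; by (B) there is `c'` with `c' δ + c₀ Θ_0 ∈ N`; the difference `(q³ f(w0) - c') δ` is in `M`,
so in `N` by (A).  Finally `q`, `q²` are invertible in `R`. -/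
def StGEN3 : Prop := ∀ {k : Type u} {F : Type v} {R : Type w} {K : Type z} {E : Type y} {Ω : Type o} [Field k] [Fintype k]
  [Field F] [Fintype F] [Algebra k F] {σ : F ≃ₐ[k] F} [CommRing R] [IsDomain R] [Field K] [Algebra R K] {hσ : QE σ}
  [Group E] [MulAction E Ω] {H : Set E} {S : Set Ω} (G : G3 hσ H S) {χ : AddChar F R} {r : R} {x : F},
  Ctx K σ χ r x → Sums σ χ x → Bas (K := K) hσ χ r → Ac (K := K) G → ∀ N M : Submodule R (Ω → K), HS H S N → HS H S M →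
    N ≤ M → (∀ c : K, (fun s => c * G.del K s) ∈ M → (fun s => c * G.del K s) ∈ N) →
    (∀ c c' : K, (fun s => c' * G.del K s + c * G.th K χ 0 s) ∈ M →
      ∃ c'', (fun s => c'' * G.del K s + c * G.th K χ 0 s) ∈ N) →
    Jn G χ M ≤ Jn G χ N → Qn G χ M ≤ Qn G χ N → N = M

/-- MODULE FIN3 (about 120 lines).  PROOF.  For a chain `N` (`Ch R H S N`; every `N i` is `HS`) the four sequences
`A i = {c | c δ ∈ N i}`, `B i = {c | ∃ c', c' δ + c Θ_0 ∈ N i}` (submodules of `K`; at most one strict step each, `StONE`) and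
`(Jn (N i), Qn (N i))` (at most five strict steps, `StCH3` with `StSND`; reduction condition and monotonicity are clear;
`Qn` is stable under `Lt` by `Ac.eext`) determine `N` (`StGEN3`).  `steps ≤ 1 + 1 + 5` (`OG.steps_le_two` twice). -/
def StFIN3 : Prop := ∀ {k : Type u} {F : Type v} {R : Type w} {K : Type z} {E : Type y} {Ω : Type o} [Field k] [Fintype k]
  [Field F] [Fintype F] [Algebra k F] {σ : F ≃ₐ[k] F} [CommRing R] [IsDomain R] [ValuationRing R] [Field K] [Algebra R K]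
  [IsFractionRing R K] {hσ : QE σ} [Group E] [MulAction E Ω] {H : Set E} {S : Set Ω} (_ : G3 hσ H S) {χ : AddChar F R}
  {r : R} {x : F}, Ctx K σ χ r x → Fintype.card F = (Nat.card k) ^ 2 → Bd R K H S 7

end Pool.Agent.Helper70.GUM
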