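import Pool.Agent.Helper70.GUM.St2
import Pool.Agent.Helper60.GUM.St

/-!
# Project GUM (MP_0bd1d1_al), part 3: the modules GEN and BAS of `Pool/Agent/Helper60/GUM/St.lean`

`GUM` (root namespace) is helper60's namespace: `HForm`, `ND`, `Gr`, `Sk`, `HP`, `pp`, `hE`, `Adm`, `Tg`, `IT`, `StWit`, `StHyp`, `StTor`,
`StGen`, `StBas`.  `Pool.Agent.Helper70.GUM` is the namespace of `Def`, `St1`, `St2` (the Heisenberg group, `G3`).
-/

set_option autoImplicit false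

namespace Pool.Agent.Helper70.GUT

open Module _root_.GUM Pool.Agent.Helper70.GUM
open UN (QE)
open OG (act Bd Stb steps Ch Wt)

universe u v w z y

variable {k : Type u} {F : Type v} [Field k] [Field F] [Algebra k F]

/-- The parameters of the abelian group attached to an isotropic plane. -/
def VV (σ : F ≃ₐ[k] F) : Submodule k (F × F × F) where
  carrier := {t | t.1 + σ t.1 = 0 ∧ t.2.2 + σ t.2.2 = 0}
  zero_mem' := by
    constructor <;> simp
  add_mem' := by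
    intro a b ha hb
    obtain ⟨h1, h2⟩ := ha
    obtain ⟨h3, h4⟩ := hb
    constructor
    · simp only [Prod.fst_add, map_add]
      linear_combination h1 + h3
    · simp only [Prod.snd_add, map_add]
      linear_combination h2 + h4
  smul_mem' := by
    intro c a ha
    obtain ⟨h1, h2⟩ := ha
    constructor
    · simp only [Prod.smul_fst, map_smul, ← smul_add, h1, smul_zero]
    · simp only [Prod.smul_snd, map_smul, ← smul_add, h2, smul_zero]

theorem mem_VV {σ : F ≃ₐ[k] F} {t : F × F × F} : t ∈ VV σ ↔ t.1 + σ t.1 = 0 ∧ t.2.2 + σ t.2.2 = 0 := Iff.rfl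

/-- The parameter of the transvection with constant `c` at `x p + y p₂`. -/
def vt {σ : F ≃ₐ[k] F} (hσ : QE σ) (c x y : F) (hc : c + σ c = 0) : ↥(VV σ) :=
  ⟨(c * (x * σ x), c * (x * σ y), c * (y * σ y)), by
    rw [mem_VV]
    constructor
    · simp only [map_mul, hσ.inv]
      linear_combination (x * σ x) * hc
    · simp only [map_mul, hσ.inv]
      linear_combination (y * σ y) * hc⟩

variable {X : Type y} [AddCommGroup X] [Module F X] {σ : F ≃ₐ[k] F}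

/-- `x ↦ x + (α B(x,p) + β B(x,p₂)) p + (- σ(β) B(x,p) + δ B(x,p₂)) p₂`. -/
def eL (B : HForm σ X) (p p₂ : X) (t : F × F × F) : X →ₗ[F] X :=
  LinearMap.id + (t.1 • B.l p + t.2.1 • B.l p₂).smulRight p + (-(σ t.2.1) • B.l p + t.2.2 • B.l p₂).smulRight p₂

theorem eL_apply (B : HForm σ X) (p p₂ : X) (t : F × F × F) (x : X) :
    eL B p p₂ t x = x + (t.1 * B.f x p + t.2.1 * B.f x p₂) • p
      + (-(σ t.2.1) * B.f x p + t.2.2 * B.f x p₂) • p₂ := by
  simp [eL, HForm.l_apply]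

theorem eL_comp (B : HForm σ X) (p p₂ : X) (h1 : B.f p p = 0) (h2 : B.f p₂ p₂ = 0) (h3 : B.f p p₂ = 0)
    (t t' : F × F × F) (x : X) : eL B p p₂ t (eL B p p₂ t' x) = eL B p p₂ (t + t') x := by
  have h4 := B.swap0 h3
  have e1 : B.f (eL B p p₂ t' x) p = B.f x p := by
    rw [eL_apply]
    simp only [B.add, B.smul, h1, h4]
    ring
  have e2 : B.f (eL B p p₂ t' x) p₂ = B.f x p₂ := by
    rw [eL_apply]
    simp only [B.add, B.smul, h2, h3]
    ring
  rw [eL_apply B p p₂ t, e1, e2, eL_apply, eL_apply]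
  simp only [Prod.fst_add, Prod.snd_add, map_add]
  module

theorem eL_zero (B : HForm σ X) (p p₂ x : X) : eL B p p₂ 0 x = x := by
  rw [eL_apply]
  simp

/-- The maps `eL` as automorphisms. -/
def eA (B : HForm σ X) (p p₂ : X) (h1 : B.f p p = 0) (h2 : B.f p₂ p₂ = 0) (h3 : B.f p p₂ = 0) (t : ↥(VV σ)) : X ≃ₗ[F] X :=
  LinearEquiv.ofLinearMap (eL B p p₂ t.1) (eL B p p₂ (-t.1))
    (by
      ext x
      simp only [LinearMap.comp_apply, LinearMap.id_apply]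
      rw [eL_comp B p p₂ h1 h2 h3, add_neg_cancel, eL_zero])
    (by
      ext x
      simp only [LinearMap.comp_apply, LinearMap.id_apply]
      rw [eL_comp B p p₂ h1 h2 h3, neg_add_cancel, eL_zero])

theorem eA_apply (B : HForm σ X) (p p₂ : X) (h1 : B.f p p = 0) (h2 : B.f p₂ p₂ = 0) (h3 : B.f p p₂ = 0) (t : ↥(VV σ))
    (x : X) : eA B p p₂ h1 h2 h3 t x = eL B p p₂ t.1 x := rfl

/-- MODULE EA (about 100 lines).  PROOF.  `add`: `eL_comp`.  `mem`: isometry (`B(x', y') = B(x, y)` for the images: the extra terms are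
`(α + σ α) B(x,p) σ B(y,p) + …`; use `B(x, p) = σ B(p, x)`, `α + σ α = 0`, `δ + σ δ = 0`), moves vectors inside `⟨p, p₂⟩ ≤ Y`, fixes the vectors
orthogonal to `p` and `p₂`.  `tra`: `eA (vt c x y)` is `z ↦ z + c B(z, x p + y p₂) (x p + y p₂)` (`σ c = - c`). -/
structure EA (B : HForm σ X) (p p₂ : X) (h1 : B.f p p = 0) (h2 : B.f p₂ p₂ = 0) (h3 : B.f p p₂ = 0) : Prop where
  add : ∀ t t' : ↥(VV σ), eA B p p₂ h1 h2 h3 (t + t') = eA B p p₂ h1 h2 h3 t * eA B p p₂ h1 h2 h3 t'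
  mem : ∀ Y : Submodule F X, p ∈ Y → p₂ ∈ Y → ∀ t, eA B p p₂ h1 h2 h3 t ∈ Gr B Y
  tra : ∀ (hσ : QE σ) (c x y : F) (hc : c + σ c = 0) (z : X), eA B p p₂ h1 h2 h3 (vt hσ c x y hc) z =
    z + (c * B.f z (x • p + y • p₂)) • (x • p + y • p₂)

/-- MODULE EA, statement. -/
def StEA : Prop := ∀ {k : Type u} {F : Type v} [Field k] [Field F] [Algebra k F] {X : Type y} [AddCommGroup X]
  [Module F X] {σ : F ≃ₐ[k] F} (_ : QE σ) (B : HForm σ X) (p p₂ : X) (h1 : B.f p p = 0) (h2 : B.f p₂ p₂ = 0)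
  (h3 : B.f p p₂ = 0), EA B p p₂ h1 h2 h3

/-- MODULE WTI (about 180 lines).  A hermitian form in two variables over a finite field has a zero.  PROOF.  Let `τ ≠ 0`, `σ τ = - τ`
(`τ = y - σ y`, `QE.ne`); every `c` with `c + σ c = 0` is `n τ` with `n ∈ k` (`QE.fix`) and `vt (n τ) = n • vt τ`, so it is enough to have
`l(vt τ x y) = 0`.  With `A := l(τ,0,0)`, `C := l(0,0,τ)`, `Φ(w) := l(0, τ w, 0)` (`k`-linear `F → k`) and `N(x) = x σ(x) ∈ k`:
`l(vt τ x y) = A N(x) + Φ(x σ(y)) + C N(y)`.  If `C = 0` take `(0, 1)`.  Let `C ≠ 0`, `x = 1`.  There is `μ ∈ F` with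
`Φ(w) = μ σ(w) + σ(μ) w` for all `w` (the map `μ ↦ (w ↦ Tr(μ σ(w)))` from `F` to `Dual k F` is injective, because the trace is not zero, and both sides
have dimension two).  Then `A + Φ(σ y) + C N(y) = C N(y + σ(μ)/C) + A - N(μ)/C` up to the choice of conjugates (`Φ(σ y) = μ y + σ(μ) σ(y)`,
`C N(y + σ(μ)/C) = C N(y) + μ y + σ(μ) σ(y) + N(μ)/C`); the norm is onto `k` (`QE.nrm`), choose `y`. -/
def StWTI : Prop := ∀ {k : Type u} {F : Type v} [Field k] [Finite k] [Field F] [Algebra k F] {σ : F ≃ₐ[k] F} (hσ : QE σ)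
  (l : Dual k ↥(VV σ)), ∃ x y : F, (x ≠ 0 ∨ y ≠ 0) ∧ ∀ (c : F) (hc : c + σ c = 0), l (vt hσ c x y hc) = 0

/-- MODULE EXI (about 100 lines).  PROOF.  `Z = pp B Y p p'` is `ND` of dimension at least two (`StHyp.nd`, `fr`).  A nonzero `a ∈ Z` is isotropic
(done) or `Z ∩ a^⊥` has dimension at least one (`StHyp.aniso`); take `b ≠ 0` in it; `b` is isotropic (done) or there is `t` with
`N(t) = - B(a,a)/B(b,b)` (this is fixed by `σ`; `QE.fix`, `QE.nrm`) and `p₂ = a + t b` (`≠ 0`: `B(p₂, a) ≠ 0`). -/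
def StEXI : Prop := ∀ {k : Type u} {F : Type v} [Field k] [Field F] [Algebra k F] {X : Type y} [AddCommGroup X]
  [Module F X] [FiniteDimensional F X] {σ : F ≃ₐ[k] F} (_ : QE σ) (B : HForm σ X), StHyp B → ∀ Y p p', ND B Y → HP B Y p p' →
  4 ≤ finrank F Y → ∃ p₂ ∈ pp B Y p p', p₂ ≠ 0 ∧ B.f p₂ p₂ = 0

/-- MODULE GENF (about 180 lines).  PROOF.  Take `p₂` from `StEXI`; `V = VV σ` is finite, `e = eA B p p₂` (`StEA`).  Let `f ∈ N (i+1)`.  By
`OG.exists_decomp` (for `ψ`, `|Dual k V|` is a power of `|k|`, `M = N (i+1)`) `f` is in the sum of the `N (i+1) ⊓ Wt K e ψ l`.  Let `g` be in one of them.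
By `StWTI` there is `p'' = x p + y p₂`, nonzero (`p`, `p₂` are independent: `B(p', p) = 1`, `B(p', p₂) = 0`, so `x ≠ 0` gives `B(p', p'') ≠ 0`; if
`x = 0` then `p'' = y p₂`), isotropic, in `Y`, with `act t g = g` for all `t ∈ Tg B p''` (`EA.tra`: `t = e (vt c x y)`, `ψ(l(vt ..)) = ψ(0) = 1`).  By `StWit` there
is `h ∈ Gr B Y` with `h p = p''`.  Then `act h⁻¹ g ∈ N (i+1) ⊓ IT R K B p` (for `t ∈ Tg B p`: `h t h⁻¹ ∈ Tg B (h p)`) `= N i ⊓ IT`, so
`g = act h (act h⁻¹ g) ∈ N i`.  (`Gr B Y` is closed under inverses: `StGrp`.) -/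
def StGENF : Prop := ∀ {k : Type u} {F : Type v} {R : Type w} {K : Type z} [Field k] [Finite k] [Field F] [Algebra k F]
  {X : Type y} [AddCommGroup X] [Module F X] [FiniteDimensional F X] [CommRing R] [IsDomain R] [IsLocalRing R] [Field K]
  [Algebra R K] {σ : F ≃ₐ[k] F} (_ : QE σ) (B : HForm σ X) (ψ : AddChar k R), (∃ c, ψ c ≠ 1) →
  IsUnit ((Nat.card k : ℕ) : R) → StGrp B → StHyp B → StWit B → StGen R K B

/-! ### The base cases -/

/-- MODULE UU (about 60 lines).  PROOF.  `pp B Y p p'` has dimension one (`StHyp.fr`) and is `ND` (`StHyp.nd`); so a nonzero vector `a` of it has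
`B(a,a) ≠ 0` (else `a` is orthogonal to `pp`).  `- 1/B(a,a)` is fixed by `σ`, so it is a norm `N(t)` (`QE.fix`, `QE.nrm`); `u = t a`. -/
def StUU : Prop := ∀ {k : Type u} {F : Type v} [Field k] [Field F] [Algebra k F] {X : Type y} [AddCommGroup X]
  [Module F X] [FiniteDimensional F X] {σ : F ≃ₐ[k] F} (_ : QE σ) (B : HForm σ X), StHyp B → ∀ Y p p', ND B Y → HP B Y p p' →
  finrank F Y = 3 → ∃ u ∈ pp B Y p p', B.f u u = -1

/-- MODULE G3C (about 300 lines; may be split).  PROOF.  `w g = ⟨p' + g.a u + g.c p⟩`, `w0 = ⟨p⟩`, `e g = hE B p (g.a u) g.c` (`hE` on `p'`: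
`p' + g.a u + g.c p`; `hL_comp`, `B(a' u, a u) = - a' σ(a)`, so `e` is multiplicative; admissible: `c + σ c - a σ(a) = 0`; `StGrp.heis`),
`n x = x + (B(x,p) - B(x,p')) (p - p')` (a linear involution, isometry, `p ↔ p'`, fixes `u` and everything orthogonal to `p`, `p'`),
`tor t` = the element of `StTor` with `c := t` (`t p`, `σ(t)⁻¹ p'`, fixes `u`) for `t ≠ 0`, `1` else.  `inj`: from
`p' + a u + c p = s (p' + a₁ u + c₁ p)` by the forms with `p`, `u`, `p'`.  `cov`: `Y = ⟨p, p', u⟩` (dimension three; independent vectors); a totally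
isotropic line `⟨y⟩ ≤ Y`, `y = α p' + β u + γ p`: if `α = 0` then `B(y,y) = - N(β) = 0`, `⟨y⟩ = ⟨p⟩`; else scale to `α = 1`, then
`γ + σ(γ) = N(β)`.  Conversely `⟨p' + a u + c p⟩` and `⟨p⟩` are totally isotropic.  `n_w`: `⟨p + a u + c p'⟩ = ⟨p' + (a/c) u + (1/c) p⟩`.
`t_w`: `⟨σ(t)⁻¹ p' + a u + c t p⟩ = ⟨p' + σ(t) a u + t σ(t) c p⟩`. -/
def StG3C : Prop := ∀ {k : Type u} {F : Type v} [Field k] [Field F] [Algebra k F] {X : Type y} [AddCommGroup X]
  [Module F X] [FiniteDimensional F X] {σ : F ≃ₐ[k] F} (hσ : QE σ) (B : HForm σ X), StGrp B → StTor B → ∀ Y p p', HP B Y p p' →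
  finrank F Y = 3 → ∀ u ∈ pp B Y p p', B.f u u = -1 → Nonempty (G3 hσ (Gr B Y) (Sk B Y 1))

/-- MODULE M2 (about 250 lines).  `Y = ⟨p, p'⟩`, `j = 1`.  PROOF.  The totally isotropic lines are `⟨p⟩` and `⟨p' + c p⟩`, `c ∈ V := {c : c + σ c = 0}`
(a `k`-subspace of `F` of dimension one).  Apply `OG.Bd_clifford` with `e : V → (X ≃ₗ[F] X)`, `e c = hE B p 0 c` (`x ↦ x + c B(x,p) p`, so
`e c • ⟨p' + d p⟩ = ⟨p' + (c + d) p⟩`, `e c • ⟨p⟩ = ⟨p⟩`; in `Gr B Y` by `StGrp.heis`), the weights `l = 0` with `n = 2`, `H₀ = {1}`, `B₀ = {⟨p⟩, ⟨p'⟩}`, and one nonzero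
`l₁ : Dual k V` with `n = 1`, `H₀ = {1}`, `B₀ = {⟨p'⟩}` (a function of nonzero weight vanishes at `⟨p⟩`; `OG.Bd_single`, `OG.Bd_union`).  Every `l ≠ 0` is
conjugate to `l₁`: `V` is one-dimensional, so `l = n l₁`, `n ∈ k`, `n ≠ 0`; with the torus element `t` (`StTor`) of parameter `c`:
`t (e d) t⁻¹ = e (c σ(c) d)`, and `N(c) = n` or `n⁻¹` is solvable (`QE.nrm`); use `OG.Wt_conj`.  The bound is `2 + 1 = 3`. -/
def StM2 : Prop := ∀ {k : Type u} {F : Type v} {R : Type w} {K : Type z} [Field k] [Finite k] [Field F] [Algebra k F]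
  {X : Type y} [AddCommGroup X] [Module F X] [FiniteDimensional F X] [CommRing R] [IsDomain R] [ValuationRing R] [Field K]
  [Algebra R K] [IsFractionRing R K] {σ : F ≃ₐ[k] F} (_ : QE σ) (B : HForm σ X) (ψ : AddChar k R), (∃ c, ψ c ≠ 1) →
  IsUnit ((Nat.card k : ℕ) : R) → StGrp B → StTor B → ∀ Y p p', HP B Y p p' → finrank F Y = 2 →
  Bd R K (Gr B Y) (Sk B Y 1) 3

/-- MODULE JB (about 100 lines).  PROOF.  (a) Let `W ∈ Sk B Y j`, `j ≥ 2`, in particular `W ≠ 0`.  Take `0 ≠ p ∈ W`, isotropic, and `p'` with `HP B Y p p'`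
(`StHyp.exHP`).  `W ∩ p'^⊥` has dimension at least `j - 1 ≥ 1`; a nonzero vector `a` of it is in `pp B Y p p'` (`B(a,p) = 0` because `W` is totally
isotropic), which has dimension `dim Y - 2 ≤ 1` and is `ND`; but `a` is isotropic and spans it, a contradiction.  (b) If `W ∈ Sk B Y j` with `j ≥ 1` then
`Y` has a nonzero isotropic vector.  (c) `dim Y ≥ 2` if `HP B Y p p'`. -/
def StJB : Prop := ∀ {k : Type u} {F : Type v} [Field k] [Field F] [Algebra k F] {X : Type y} [AddCommGroup X]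
  [Module F X] [FiniteDimensional F X] {σ : F ≃ₐ[k] F} (_ : QE σ) (B : HForm σ X), StHyp B → ∀ Y : Submodule F X, ND B Y →
  (finrank F Y ≤ 3 → ∀ j, 2 ≤ j → Sk B Y j = ∅) ∧
  (∀ W, W ∈ Sk B Y 1 → ∃ p ∈ Y, p ≠ 0 ∧ B.f p p = 0) ∧
  (∀ p p', HP B Y p p' → 2 ≤ finrank F Y)

/-- MODULE BASF (about 150 lines).  PROOF.  `j = 0`: `Sk B Y 0 ⊆ {⊥}`, `OG.Bd_single`, `1 ≤ 3 ^ m`.  `j ≥ 2`: `StJB`, `OG.Bd_empty`.  `j = 1`: if there is no
nonzero isotropic vector in `Y` then `Sk B Y 1 = ∅` (`StJB`).  Else `HP B Y p p'` (`StHyp.exHP`), `dim Y ∈ {2, 3}`; `dim Y = 2`: `StM2`, `3 ≤ 9`;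
`dim Y = 3`: `StUU`, `StG3C`, `StFIN3`, `7 ≤ 27`.  For `StFIN3` one needs `Fintype` instances (classical), `χ : AddChar F R` with `χ(z) ≠ 1` for some
`z`, `z + σ z = 0`, and a `Ctx`: from `χ₀` (not trivial on `F`) take `χ(a) := χ₀(s a)` with a suitable `s ∈ F` (`s = b/τ` where `χ₀(b) ≠ 1`, `σ τ = - τ ≠ 0`),
`r` the inverse of `q` in `R`, `x` from `StFF`. -/
def StBASF : Prop := ∀ {k : Type u} {F : Type v} {R : Type w} {K : Type z} [Field k] [Finite k] [Field F] [Algebra k F]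
  {X : Type y} [AddCommGroup X] [Module F X] [FiniteDimensional F X] [CommRing R] [IsDomain R] [ValuationRing R] [Field K]
  [Algebra R K] [IsFractionRing R K] {σ : F ≃ₐ[k] F} (_ : QE σ) (B : HForm σ X) (ψ : AddChar k R) (χ : AddChar F R),
  (∃ c, ψ c ≠ 1) → (∃ c, χ c ≠ 1) → IsUnit ((Nat.card k : ℕ) : R) → ((Nat.card k : ℕ) : K) + 1 ≠ 0 →
  StGrp B → StTor B → StHyp B → StBas R K B

end Pool.Agent.Helper70.GUT
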